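import Pool.Agent.Helper70_MWX.Rc
import Pool.Agent.Helper57_MWX.HbS

/-!
# The label pentagon, part 4: the theorem for the LR world (helper70)
-/

set_option autoImplicit false

namespace Pool.Agent.Helper70_MWX

open Pool.Agent.Helper14_MV Pool.Agent.Helper2_MV
open Pool.Agent.MWX (LL)

section
variable {n : ℕ} {β : FIC}

/-- the shift of the label by one is the residue crossing -/
theorem rc_of (h : LL n β) {m : ℕ} (hl : Le n β m (m + 1)) : Helper61_MWD.RC (RR β) := by
  have hn := h.pos
  have hp : MWZ.Per n (RR β) := h.per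
  have h1 := le_rc hn hp hl
  have m2 : ∀ a : ℕ, 2 * n + a ≡ a [MOD n] := by
    intro a
    have h2 : 2 * n ≡ 0 [MOD n] := (Nat.modEq_zero_iff_dvd).2 (dvd_mul_left n 2)
    simpa using h2.add_right a
  have yw : ∀ a b c d : ℕ, RR β (Z a) (Z c) → RR β (Z b) (Z d) → RR β (Yw a b) (Yw c d) := by
    intro a b c d h2 h3
    exact h2.append ((RR.refl [1]).append (h3.append (RR.refl [2, 1])))
  have s1 : RR β (Yw 2 2) (Yw (2 * n + 2) (2 * n + 2)) :=
    yw _ _ _ _ (zcap hp le_rfl (by omega) (m2 2).symm) (zcap hp le_rfl (by omega) (m2 2).symm)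
  have s2 : RR β (Yw 3 1) (Yw (n + 3) (n + 1)) := by
    have h2 : RR β (Yw 1 1) (Yw (n + 1) (n + 1)) := MWX.h1n h
    have h3 := yw_mul 2 0 h2
    have e : 2 + (n + 1) = n + 3 := by omega
    rw [e] at h3
    exact h3
  have s3 : RR β (Yw (n + 3) (n + 1)) (Yw (2 * n + 3) (2 * n + 1)) := by
    have e1 : n + 3 ≡ 2 * n + 3 [MOD n] := by
      have : n + 3 ≡ 3 [MOD n] := by simp [Nat.ModEq]
      exact this.trans (m2 3).symm
    have e2 : n + 1 ≡ 2 * n + 1 [MOD n] := by
      have : n + 1 ≡ 1 [MOD n] := by simp [Nat.ModEq]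
      exact this.trans (m2 1).symm
    exact yw _ _ _ _ (zcap hp (by omega) (by omega) e1) (zcap hp (by omega) (by omega) e2)
  have h4 : RR β (Yw 3 1) (Yw 2 2) :=
    β.trans s2 (β.trans s3 (β.trans (RR.symm h1) (RR.symm s1)))
  exact h4

/-- two common blocks -/
theorem two_com (h : LL n β) : RR β [0, 1, 2, 1, 0] [1, 0, 2, 1, 0] := by
  have a1 : RR β [0, 1, 2, 0, 1] [1, 0, 2, 0, 1] :=
    h.lx.sub (fun c => if c = 3 then [1] else [c])
  have a2 : RR β [0, 1, 2, 0, 1] [0, 1, 2, 1, 0] :=
    h.rx.sub (fun c => if c = 3 then [1] else [c])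
  have a3 : RR β [1, 0, 2, 1, 0] [1, 0, 2, 0, 1] :=
    h.rx.sub (fun c => if c = 3 then [0] else if c = 0 then [1] else [c])
  exact β.trans (RR.symm a2) (β.trans a1 (RR.symm a3))

/-- an occurrence behind the separator gives the residue crossing -/
theorem e_rc (h : LL n β) (hE : ¬ NoE β) : ∃ m, Le n β m (m + 1) := by
  have hn := h.pos
  have hp : MWZ.Per n (RR β) := h.per
  unfold NoE at hE
  push Not at hE
  obtain ⟨c, c', e, he, he0⟩ := hE
  obtain ⟨d, rfl⟩ : ∃ d, e = d + 1 := ⟨e - 1, by omega⟩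
  refine ⟨c, Le.symm (le_id hn hp (i := c + 1) (j := 0) (i' := c) (j' := 1) ?_)⟩
  -- the identity around `1 2 1`
  have g1 : ∀ k j : ℕ, RR β (Z (k + c) ++ 1 :: (Z j ++ [2, 1]))
      (Z (k + c') ++ 1 :: (Z j ++ 2 :: 1 :: Z (d + 1))) := by
    intro k j
    have h1 := he.sub (fun x => if x = 2 then 1 :: (Z j ++ [2, 1]) else [x])
    have hz : ∀ m, (Z m).flatMap (fun x => if x = 2 then 1 :: (Z j ++ [2, 1]) else [x]) = Z m :=
      fun m => z_sub' (by rfl) m
    have e1 : (Z c ++ [2]).flatMap (fun x => if x = 2 then 1 :: (Z j ++ [2, 1]) else [x]) =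
        Z c ++ 1 :: (Z j ++ [2, 1]) := by
      rw [List.flatMap_append, hz]
      simp
    have e2 : (Z c' ++ 2 :: Z (d + 1)).flatMap
        (fun x => if x = 2 then 1 :: (Z j ++ [2, 1]) else [x]) =
        Z c' ++ 1 :: (Z j ++ 2 :: 1 :: Z (d + 1)) := by
      rw [List.flatMap_append, List.flatMap_cons, hz, hz]
      simp
    rw [e1, e2] at h1
    have h2 := rr_left (Z k) h1
    rw [← List.append_assoc, ← List.append_assoc, ← z_add, ← z_add] at h2
    exact h2
  have g2 : RR β (Z (1 + c') ++ 1 :: (Z 0 ++ 2 :: 1 :: Z (d + 1)))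
      (Z (0 + c') ++ 1 :: (Z 1 ++ 2 :: 1 :: Z (d + 1))) := by
    have h1 := rr_left (Z c') (rr_right (Z d) (two_com h))
    have e1 : Z c' ++ ([0, 1, 2, 1, 0] ++ Z d) =
        Z (1 + c') ++ 1 :: (Z 0 ++ 2 :: 1 :: Z (d + 1)) := by
      rw [Nat.add_comm 1 c', z_add c' 1, Nat.add_comm d 1, z_add 1 d, List.append_assoc]
      rfl
    have e2 : Z c' ++ ([1, 0, 2, 1, 0] ++ Z d) =
        Z (0 + c') ++ 1 :: (Z 1 ++ 2 :: 1 :: Z (d + 1)) := by
      rw [Nat.zero_add, Nat.add_comm d 1, z_add 1 d]
      rfl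
    rw [e1, e2] at h1
    exact h1
  have h3 := β.trans (g1 1 0) (β.trans g2 (RR.symm (g1 0 1)))
  have e3 : Z (1 + c) ++ 1 :: (Z 0 ++ [2, 1]) = Yw (c + 1) 0 := by
    rw [Nat.add_comm]; rfl
  have e4 : Z (0 + c) ++ 1 :: (Z 1 ++ [2, 1]) = Yw c 1 := by
    rw [Nat.zero_add]; rfl
  rw [e3, e4] at h3
  exact h3

/-! ### three blocks -/

/-- `0^a 2 0^b 3 0^c` -/
def f3 (a b c : ℕ) : List ℕ := Z a ++ 2 :: (Z b ++ 3 :: Z c)

/-- the words with the letters `0`, `2`, `3` and the order of the simple letters -/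
theorem f3_of (H : Iso3 β) {L : List ℕ} (h : RR β [0, 2, 0, 3, 0] L) : ∃ a b c, L = f3 a b c := by
  have hc : ∀ l : List ℕ, (∀ c ∈ l, c = 0 ∨ c = 2 ∨ c = 3) → l.count 2 = 0 → l.count 3 = 0 →
      l = Z l.length := by
    intro l h1 h2 h3
    rw [List.eq_replicate_iff]
    refine ⟨rfl, ?_⟩
    intro b hb
    rcases h1 b hb with h4 | h4 | h4
    · exact h4
    · rw [h4] at hb; exact absurd hb (List.count_eq_zero.1 h2)
    · rw [h4] at hb; exact absurd hb (List.count_eq_zero.1 h3)
  have hL : ∀ c ∈ L, c = 0 ∨ c = 2 ∨ c = 3 := by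
    intro c hc
    by_contra hcon
    have h1 : c ∉ ([0, 2, 0, 3, 0] : List ℕ) := by
      intro h2
      apply hcon
      simp at h2
      tauto
    exact (RR.content H h h1) hc
  have h23 : L.filter (fun c => decide (c = 2 ∨ c = 3)) = [2, 3] := by
    have h1 := h.filter (fun c => decide (c = 2 ∨ c = 3))
    have e : ([0, 2, 0, 3, 0] : List ℕ).filter (fun c => decide (c = 2 ∨ c = 3)) = [2, 3] := by
      decide
    rw [e] at h1
    -- `23` is kept: append `2`
    have h2 := (h1.append (RR.refl [2])).sub (fun c => if c = 2 then [0] else [1])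
    have e2 : ([2, 3] ++ [2] : List ℕ).flatMap (fun c => if c = 2 then [0] else [1]) =
        [0, 1, 0] := by decide
    rw [e2, List.flatMap_append] at h2
    have h3 := H _ h2
    have h4 : (L.filter (fun c => decide (c = 2 ∨ c = 3))).flatMap
        (fun c => if c = 2 then [0] else [1]) = [0, 1] := by
      have e3 : ([2] : List ℕ).flatMap (fun c => if c = 2 then [0] else [1]) = [0] := by decide
      rw [e3] at h3
      have e4 : ([0, 1, 0] : List ℕ) = [0, 1] ++ [0] := rfl
      rw [e4] at h3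
      exact List.append_cancel_right h3
    have h5 : ∀ l : List ℕ, (∀ c ∈ l, c = 2 ∨ c = 3) →
        (l.flatMap (fun c => if c = 2 then [0] else [1])).flatMap
          (fun c => if c = 0 then [2] else [3]) = l := by
      intro l hl
      induction l with
      | nil => rfl
      | cons a l ih =>
        rw [List.flatMap_cons, List.flatMap_append,
          ih (fun c hc => hl c (List.mem_cons_of_mem _ hc))]
        rcases hl a (by simp) with h6 | h6
        · subst h6; simp
        · subst h6; simp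
    have h6 := h5 (L.filter (fun c => decide (c = 2 ∨ c = 3))) (by
      intro c hc
      exact of_decide_eq_true (List.mem_filter.1 hc).2)
    rw [h4] at h6
    rw [← h6]
    decide
  have c2 : L.count 2 = 1 := by
    rw [← List.count_filter (p := fun c => decide (c = 2 ∨ c = 3)) (by simp), h23]; rfl
  have c3 : L.count 3 = 1 := by
    rw [← List.count_filter (p := fun c => decide (c = 2 ∨ c = 3)) (by simp), h23]; rfl
  have h2 : 2 ∈ L := by rw [← List.one_le_count_iff, c2]
  obtain ⟨A, B, hAB, hA⟩ := List.eq_append_cons_of_mem h2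
  have hA3 : 3 ∉ A := by
    intro h3
    rw [hAB, List.filter_append] at h23
    have h4 : 3 ∈ A.filter (fun c => decide (c = 2 ∨ c = 3)) := List.mem_filter.2 ⟨h3, by simp⟩
    have h5 : 2 ∉ A.filter (fun c => decide (c = 2 ∨ c = 3)) := fun h => hA (List.mem_filter.1 h).1
    rcases hF : A.filter (fun c => decide (c = 2 ∨ c = 3)) with _ | ⟨x, l⟩
    · rw [hF] at h4; simp at h4
    · rw [hF] at h23 h5
      simp only [List.cons_append, List.cons.injEq] at h23
      rw [h23.1] at h5
      simp at h5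
  have h3B : 3 ∈ B := by
    have h3 : 3 ∈ L := by rw [← List.one_le_count_iff, c3]
    rw [hAB] at h3
    rcases List.mem_append.1 h3 with h4 | h4
    · exact absurd h4 hA3
    · rcases List.mem_cons.1 h4 with h5 | h5
      · omega
      · exact h5
  obtain ⟨C, D, hCD, hC⟩ := List.eq_append_cons_of_mem h3B
  have k2 : A.count 2 + (1 + (C.count 2 + D.count 2)) = 1 := by
    rw [hAB, hCD] at c2
    simp only [List.count_append, List.count_cons] at c2
    simp at c2
    omega
  have k3 : A.count 3 + (C.count 3 + (1 + D.count 3)) = 1 := by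
    rw [hAB, hCD] at c3
    simp only [List.count_append, List.count_cons] at c3
    simp at c3
    omega
  refine ⟨A.length, C.length, D.length, ?_⟩
  have eA := hc A (fun c h => hL c (by rw [hAB]; simp [h])) (by omega) (by omega)
  have eC := hc C (fun c h => hL c (by rw [hAB, hCD]; simp [h])) (by omega) (by omega)
  have eD := hc D (fun c h => hL c (by rw [hAB, hCD]; simp [h])) (by omega) (by omega)
  rw [hAB, hCD]
  unfold f3
  rw [← eA, ← eC, ← eD]

/-- merging of the first two blocks -/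
theorem f3_m1 {a b c a' b' c' : ℕ} (h : RR β (f3 a b c) (f3 a' b' c')) :
    RR β (f2 (a + b) c) (f2 (a' + b') c') := by
  have h1 := h.sub (fun x => if x = 2 then [] else if x = 3 then [2] else [x])
  have e : ∀ a b c : ℕ, (f3 a b c).flatMap (fun x => if x = 2 then [] else if x = 3 then [2]
      else [x]) = f2 (a + b) c := by
    intro a b c
    unfold f3 f2
    have hz : ∀ m, (Z m).flatMap (fun x => if x = 2 then [] else if x = 3 then [2]
        else [x]) = Z m := fun m => z_sub' (by rfl) m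
    rw [List.flatMap_append, List.flatMap_cons, List.flatMap_append, List.flatMap_cons, hz, hz,
      hz, z_add a b, List.append_assoc]
    simp
  rw [e, e] at h1
  exact h1

/-- merging of the last two blocks -/
theorem f3_m2 {a b c a' b' c' : ℕ} (h : RR β (f3 a b c) (f3 a' b' c')) :
    RR β (f2 a (b + c)) (f2 a' (b' + c')) := by
  have h1 := h.sub (fun x => if x = 3 then [] else [x])
  have e : ∀ a b c : ℕ, (f3 a b c).flatMap (fun x => if x = 3 then [] else [x]) =
      f2 a (b + c) := by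
    intro a b c
    unfold f3 f2
    have hz : ∀ m, (Z m).flatMap (fun x => if x = 3 then [] else [x]) = Z m :=
      fun m => z_sub' (by rfl) m
    rw [List.flatMap_append, List.flatMap_cons, List.flatMap_append, List.flatMap_cons, hz, hz,
      hz, z_add b c]
    simp
  rw [e, e] at h1
  exact h1

/-- entries -/
theorem f3_ent {a b c a' b' c' : ℕ} (h1 : RR β (Z a) (Z a')) (h2 : RR β (Z b) (Z b'))
    (h3 : RR β (Z c) (Z c')) : RR β (f3 a b c) (f3 a' b' c') :=
  h1.append ((RR.refl [2]).append (h2.append ((RR.refl [3]).append h3)))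

/-- `x²Tx ≈ x²Tx^(n+1)` in contexts -/
theorem r_in (h : LL n β) (i j : ℕ) (p T q : List ℕ) :
    RR β (p ++ (Z (i + 2) ++ (T ++ (Z (j + 1) ++ q))))
      (p ++ (Z (i + 2) ++ (T ++ (Z (j + (n + 1)) ++ q)))) := by
  have h0 : RR β (Z 2 ++ 2 :: Z 1) (Z 2 ++ 2 :: Z (n + 1)) := h.r
  have h1 := MWX.sub_t T h0
  have h2 := rr_left (p ++ Z i) (rr_right (Z j ++ q) h1)
  have e : ∀ k : ℕ, (p ++ Z i) ++ (Z 2 ++ (T ++ Z k) ++ (Z j ++ q)) =
      p ++ (Z (i + 2) ++ (T ++ (Z (j + k) ++ q))) := by
    intro k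
    rw [z_add i 2, Nat.add_comm j k, z_add k j]
    simp only [List.append_assoc]
  have h3 : RR β ((p ++ Z i) ++ (Z 2 ++ (T ++ Z 1) ++ (Z j ++ q)))
      ((p ++ Z i) ++ (Z 2 ++ (T ++ Z (n + 1)) ++ (Z j ++ q))) := h2
  rw [e, e] at h3
  exact h3

/-- `xTx² ≈ x^(n+1)Tx²` in contexts -/
theorem d_in (h : MWZ.R' n (RR β)) (i j : ℕ) (p T q : List ℕ) :
    RR β (p ++ (Z (i + 1) ++ (T ++ (Z (j + 2) ++ q))))
      (p ++ (Z (i + (n + 1)) ++ (T ++ (Z (j + 2) ++ q)))) := by
  have h0 : RR β (Z 1 ++ 2 :: Z 2) (Z (n + 1) ++ 2 :: Z 2) := h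
  have h1 := MWX.sub_t T h0
  have h2 := rr_left (p ++ Z i) (rr_right (Z j ++ q) h1)
  have e : ∀ k : ℕ, (p ++ Z i) ++ (Z k ++ (T ++ Z 2) ++ (Z j ++ q)) =
      p ++ (Z (i + k) ++ (T ++ (Z (j + 2) ++ q))) := by
    intro k
    rw [z_add i k, Nat.add_comm j 2, z_add 2 j]
    simp only [List.append_assoc]
  have h3 : RR β ((p ++ Z i) ++ (Z 1 ++ (T ++ Z 2) ++ (Z j ++ q)))
      ((p ++ Z i) ++ (Z (n + 1) ++ (T ++ Z 2) ++ (Z j ++ q))) := h2
  rw [e, e] at h3
  exact h3

/-- all entries may be multiplied by `n + 1` if one of them is at least two -/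
theorem f3_thick (h : LL n β) (hR : MWZ.R' n (RR β)) {a b c : ℕ} (h2 : 2 ≤ a ∨ 2 ≤ b ∨ 2 ≤ c) :
    RR β (f3 a b c) (f3 ((n + 1) * a) ((n + 1) * b) ((n + 1) * c)) := by
  have hn := h.pos
  have hp : MWZ.Per n (RR β) := h.per
  have big : ∀ x : ℕ, 2 ≤ x → RR β (Z x) (Z ((n + 1) * x)) := by
    intro x hx
    refine zcap hp hx ?_ ?_
    · have : x ≤ (n + 1) * x := Nat.le_mul_of_pos_left x (by omega)
      omega
    · have : (n + 1) * x = x + n * x := by ring
      rw [this]
      simpa using (((Nat.modEq_zero_iff_dvd).2 (dvd_mul_right n x)).symm).add_left x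
  have zz : ∀ x : ℕ, x = 0 → RR β (Z x) (Z ((n + 1) * x)) := by
    intro x hx; rw [hx]; exact RR.refl _
  -- the first entry
  have s1 : RR β (f3 a b c) (f3 ((n + 1) * a) b c) := by
    rcases Nat.lt_or_ge a 2 with ha | ha
    · rcases Nat.eq_zero_or_pos a with h0 | h0
      · exact f3_ent (zz a h0) (RR.refl _) (RR.refl _)
      · have ha1 : a = 1 := by omega
        subst ha1
        rw [Nat.mul_one]
        rcases h2 with h3 | h3 | h3
        · omega
        · obtain ⟨j, rfl⟩ : ∃ j, b = j + 2 := ⟨b - 2, by omega⟩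
          have := d_in hR 0 j [] [2] (3 :: Z c)
          simpa [f3] using this
        · obtain ⟨j, rfl⟩ : ∃ j, c = j + 2 := ⟨c - 2, by omega⟩
          have := d_in hR 0 j [] (2 :: (Z b ++ [3])) []
          simpa [f3] using this
    · exact f3_ent (big a ha) (RR.refl _) (RR.refl _)
  have ha' : 2 ≤ a → 2 ≤ (n + 1) * a := by
    intro ha
    have : a ≤ (n + 1) * a := Nat.le_mul_of_pos_left a (by omega)
    omega
  have hb' : 2 ≤ b → 2 ≤ (n + 1) * b := by
    intro ha
    have : b ≤ (n + 1) * b := Nat.le_mul_of_pos_left b (by omega)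
    omega
  have s2 : RR β (f3 ((n + 1) * a) b c) (f3 ((n + 1) * a) ((n + 1) * b) c) := by
    rcases Nat.lt_or_ge b 2 with hb | hb
    · rcases Nat.eq_zero_or_pos b with h0 | h0
      · exact f3_ent (RR.refl _) (zz b h0) (RR.refl _)
      · have hb1 : b = 1 := by omega
        subst hb1
        rw [Nat.mul_one]
        rcases h2 with h3 | h3 | h3
        · obtain ⟨i, hi⟩ : ∃ i, (n + 1) * a = i + 2 := ⟨(n + 1) * a - 2, by have := ha' h3; omega⟩
          rw [hi]
          have := r_in h i 0 [] [2] (3 :: Z c)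
          simpa [f3] using this
        · omega
        · obtain ⟨j, rfl⟩ : ∃ j, c = j + 2 := ⟨c - 2, by omega⟩
          have := d_in hR 0 j (Z ((n + 1) * a) ++ [2]) [3] []
          simpa [f3, List.append_assoc] using this
    · exact f3_ent (RR.refl _) (big b hb) (RR.refl _)
  have s3 : RR β (f3 ((n + 1) * a) ((n + 1) * b) c)
      (f3 ((n + 1) * a) ((n + 1) * b) ((n + 1) * c)) := by
    rcases Nat.lt_or_ge c 2 with hc | hc
    · rcases Nat.eq_zero_or_pos c with h0 | h0
      · exact f3_ent (RR.refl _) (RR.refl _) (zz c h0)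
      · have hc1 : c = 1 := by omega
        subst hc1
        rw [Nat.mul_one]
        rcases h2 with h3 | h3 | h3
        · obtain ⟨i, hi⟩ : ∃ i, (n + 1) * a = i + 2 := ⟨(n + 1) * a - 2, by have := ha' h3; omega⟩
          rw [hi]
          have := r_in h i 0 [] (2 :: (Z ((n + 1) * b) ++ [3])) []
          simpa [f3] using this
        · obtain ⟨i, hi⟩ : ∃ i, (n + 1) * b = i + 2 := ⟨(n + 1) * b - 2, by have := hb' h3; omega⟩
          rw [hi]
          have := r_in h i 0 (Z ((n + 1) * a) ++ [2]) [3] []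
          simpa [f3, List.append_assoc] using this
        · omega
    · exact f3_ent (RR.refl _) (RR.refl _) (big c hc)
  exact β.trans s1 (β.trans s2 s3)

/-- `L` -/
theorem l_of (h : LL n β) (hE : NoE β) (hR : MWZ.R' n (RR β)) (hJ : ¬ NoJ β) :
    MWZ.L n (RR β) := by
  have H := h.iso
  unfold NoJ at hJ
  push Not at hJ
  obtain ⟨L, hL, hne⟩ := hJ
  obtain ⟨a, b, c, rfl⟩ := f3_of H hL
  have h0 : RR β (f3 1 1 1) (f3 a b c) := hL
  -- one entry is at least two
  have h2 : 2 ≤ a ∨ 2 ≤ b ∨ 2 ≤ c := by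
    by_contra hcon
    push Not at hcon
    obtain ⟨ha, hb, hc⟩ := hcon
    -- two blocks
    have iso2 : ∀ i j : ℕ, RR β (f2 i j) (f2 1 1) → i = 1 ∧ j = 1 := by
      intro i j h1
      have h3 := (RR.symm h1).sub (fun x => if x = 2 then [1] else [x])
      have e : ∀ i j : ℕ, (f2 i j).flatMap (fun x => if x = 2 then [1] else [x]) =
          Z i ++ 1 :: Z j := by
        intro i j
        unfold f2
        have hz : ∀ m, (Z m).flatMap (fun x => if x = 2 then [1] else [x]) = Z m :=
          fun m => z_sub' (by rfl) m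
        rw [List.flatMap_append, List.flatMap_cons, hz, hz]
        simp
      rw [e, e] at h3
      have h4 := H _ h3
      rcases i with _ | _ | i
      · simp at h4
      · rcases j with _ | _ | j
        · simp at h4
        · exact ⟨rfl, rfl⟩
        · simp [List.replicate_succ] at h4
      · simp [List.replicate_succ] at h4
    have m1 := f3_m1 h0
    have m2 := f3_m2 h0
    have tot : RR β (Z 3) (Z (a + b + c)) := by
      have h3 := m1.sub (fun x => if x = 2 then [] else [x])
      have e : ∀ i j : ℕ, (f2 i j).flatMap (fun x => if x = 2 then [] else [x]) = Z (i + j) := by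
        intro i j
        unfold f2
        have hz : ∀ m, (Z m).flatMap (fun x => if x = 2 then [] else [x]) = Z m :=
          fun m => z_sub' (by rfl) m
        rw [List.flatMap_append, List.flatMap_cons, hz, hz, z_add]
        simp
      rw [e, e] at h3
      exact h3
    have ht := lin0 H tot (by omega)
    have a1 : ¬ (a + b = 1 ∧ c = 1) := by
      rintro ⟨h3, h4⟩
      rw [h3, h4] at m1
      have := iso2 _ _ m1
      omega
    have a2 : ¬ (a = 1 ∧ b + c = 1) := by
      rintro ⟨h3, h4⟩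
      rw [h3, h4] at m2
      have := iso2 _ _ m2
      omega
    have a3 : ¬ (a = 1 ∧ b = 1 ∧ c = 1) := by
      rintro ⟨rfl, rfl, rfl⟩
      exact hne rfl
    omega
  have s1 := f3_thick h hR h2
  have s2 : RR β (f3 ((n + 1) * 1) ((n + 1) * 1) ((n + 1) * 1))
      (f3 ((n + 1) * a) ((n + 1) * b) ((n + 1) * c)) := by
    have h3 := h0.sub (fun x => if x = 0 then Z (n + 1) else [x])
    have e : ∀ a b c : ℕ, (f3 a b c).flatMap (fun x => if x = 0 then Z (n + 1) else [x]) =
        f3 ((n + 1) * a) ((n + 1) * b) ((n + 1) * c) := by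
      intro a b c
      unfold f3
      have hz : ∀ m, (Z m).flatMap (fun x => if x = 0 then Z (n + 1) else [x]) =
          Z ((n + 1) * m) := by
        intro m
        induction m with
        | zero => rfl
        | succ m ih =>
          rw [show Z (m + 1) = 0 :: Z m from rfl, List.flatMap_cons, ih, Nat.mul_succ,
            Nat.add_comm ((n + 1) * m), z_add (n + 1)]
          simp
      rw [List.flatMap_append, List.flatMap_cons, List.flatMap_append, List.flatMap_cons, hz, hz,
        hz]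
      simp
    rw [e, e] at h3
    exact h3
  have s3 := β.trans h0 (β.trans s1 (RR.symm s2))
  simp only [Nat.mul_one] at s3
  exact s3

/-- **the residue crossing, or `R'` and `L`** -/
theorem rc (h : LL n β) : Helper61_MWD.RC (RR β) ∨ (MWZ.R' n (RR β) ∧ MWZ.L n (RR β)) := by
  have hn := h.pos
  have hp : MWZ.Per n (RR β) := h.per
  by_cases hE : NoE β
  · by_cases hD : NoD β
    · exact Or.inl (rc_of h (m := 0) (pen_a hn hp h.iso hE h.md hD))
    · by_cases hJ : NoJ β
      · exact Or.inl (rc_of h (m := 0) (pen_b hn hp h.iso hE h.md hJ))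
      · right
        unfold NoD at hD
        push Not at hD
        obtain ⟨b, a', b', hb, h1, ha⟩ := hD
        have hR : MWZ.R' n (RR β) := d0_of hn hp h.iso hE (b := b) (b' := b') h1 ha hb
        exact ⟨hR, l_of h hE hR hJ⟩
  · obtain ⟨m, hm⟩ := e_rc h hE
    exact Or.inl (rc_of h hm)

end

end Pool.Agent.Helper70_MWX
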