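import Pool.Agent.MWGX.Defs
import Pool.Agent.Helper57_MWX.HBm

/-!
# The label pentagon, part 1: labels (helper70)

`Fw n i = 0^(2n+i) 1 0^(2n+(n-1)i) 2 1`; `Le n γ i j`: the words `Fw n i` and `Fw n j` are related, i.e. the
numbers `i`, `j` of `0` in front of the light letter `1` have the same label.
-/

set_option autoImplicit false

namespace Pool.Agent.Helper70_MWX

open Pool.Agent.Helper14_MV Pool.Agent.Helper2_MV
open Pool.Agent.MWK (pre)
open Pool.Agent.MWF (gaml)
open Pool.Agent.MWGN (nn)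
open Pool.Agent.MWGQ (pw)

/-- `x^i` -/
abbrev Z (i : ℕ) : List ℕ := List.replicate i 0

theorem z_add (i j : ℕ) : Z (i + j) = Z i ++ Z j := List.replicate_add ..

theorem rr_left {γ : FIC} (p : List ℕ) {u v : List ℕ} (h : RR γ u v) : RR γ (p ++ u) (p ++ v) :=
  (RR.refl p).append h

theorem rr_right {γ : FIC} (q : List ℕ) {u v : List ℕ} (h : RR γ u v) :
    RR γ (u ++ q) (v ++ q) := h.append (RR.refl q)

section
variable {n : ℕ} {γ : FIC}

/-- powers with the exponents `≥ 2` -/
theorem zcap (hp : MWZ.Per n (RR γ)) {a b : ℕ} (ha : 2 ≤ a) (hb : 2 ≤ b) (h : a ≡ b [MOD n]) :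
    RR γ (Z a) (Z b) := by
  have key : ∀ i k : ℕ, 2 ≤ i → RR γ (Z i) (Z (i + n * k)) := by
    intro i k hi
    induction k with
    | zero => exact RR.refl _
    | succ k ih =>
      have h1 : RR γ (Z 2) (Z (n + 2)) := hp
      have h2 := h1.append (RR.refl (Z (i + n * k - 2)))
      have e1 : Z 2 ++ Z (i + n * k - 2) = Z (i + n * k) := by
        rw [← z_add]; congr 1; omega
      have e2 : Z (n + 2) ++ Z (i + n * k - 2) = Z (i + n * (k + 1)) := by
        rw [← z_add]; congr 1; rw [Nat.mul_succ]; omega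
      rw [e1, e2] at h2
      exact γ.trans ih h2
  rcases Nat.le_total a b with hab | hab
  · obtain ⟨k, hk⟩ := (Nat.modEq_iff_dvd' hab).1 h
    have : b = a + n * k := by omega
    rw [this]; exact key a k ha
  · obtain ⟨k, hk⟩ := (Nat.modEq_iff_dvd' hab).1 h.symm
    have : a = b + n * k := by omega
    rw [this]; exact (key b k hb).symm

/-- equal exponents -/
def Em (n : ℕ) (γ : FIC) (a b : ℕ) : Prop := RR γ (Z (2 * n + a)) (Z (2 * n + b))

theorem Em.rfl' (a : ℕ) : Em n γ a a := RR.refl _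

theorem Em.symm {a b : ℕ} (h : Em n γ a b) : Em n γ b a := RR.symm h

theorem Em.trans {a b c : ℕ} (h : Em n γ a b) (h' : Em n γ b c) : Em n γ a c := γ.trans h h'

theorem em_mod (hn : 1 ≤ n) (hp : MWZ.Per n (RR γ)) {a b : ℕ} (h : a ≡ b [MOD n]) :
    Em n γ a b :=
  zcap hp (by omega) (by omega) (h.add_left _)

theorem em_of (hn : 1 ≤ n) (hp : MWZ.Per n (RR γ)) {a b : ℕ} (h : RR γ (Z a) (Z b)) :
    Em n γ a b := by
  have h1 := rr_left (Z (2 * n)) h
  rw [← z_add, ← z_add] at h1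
  exact h1

theorem Em.add (hn : 1 ≤ n) (hp : MWZ.Per n (RR γ)) {a b c d : ℕ} (h : Em n γ a b)
    (h' : Em n γ c d) : Em n γ (a + c) (b + d) := by
  have h1 := RR.append h h'
  rw [← z_add, ← z_add] at h1
  have m : ∀ x y : ℕ, 2 * n + (x + y) ≡ 2 * n + x + (2 * n + y) [MOD n] := by
    intro x y
    have e : 2 * n + x + (2 * n + y) = 2 * n + (x + y) + n * 2 := by ring
    rw [e]
    exact (Nat.modEq_zero_iff_dvd.2 (dvd_mul_right n 2)).symm.add_left _ |>.trans (by simp [Nat.ModEq])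
  exact γ.trans (zcap hp (by omega) (by omega) (m a c))
    (γ.trans h1 (zcap hp (by omega) (by omega) (m b d)).symm)

theorem Em.mul (hn : 1 ≤ n) (hp : MWZ.Per n (RR γ)) {a b : ℕ} (h : Em n γ a b) (k : ℕ) :
    Em n γ (k * a) (k * b) := by
  induction k with
  | zero => simpa using Em.rfl' (n := n) (γ := γ) 0
  | succ k ih =>
    rw [Nat.succ_mul, Nat.succ_mul]
    exact ih.add hn hp h

/-- `0^a 1 0^b 2 1` -/
def Yw (a b : ℕ) : List ℕ := Z a ++ 1 :: (Z b ++ [2, 1])

/-- the label word -/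
def Fw (n i : ℕ) : List ℕ := Yw (2 * n + i) (2 * n + (n - 1) * i)

/-- the same label -/
def Le (n : ℕ) (γ : FIC) (i j : ℕ) : Prop := RR γ (Fw n i) (Fw n j)

theorem Le.symm {i j : ℕ} (h : Le n γ i j) : Le n γ j i := RR.symm h

theorem Le.trans {i j k : ℕ} (h : Le n γ i j) (h' : Le n γ j k) : Le n γ i k := γ.trans h h'

/-- exponents which are equal -/
theorem yw_em {a b c d : ℕ} (h : Em n γ a b) (h' : Em n γ c d) :
    RR γ (Yw (2 * n + a) (2 * n + c)) (Yw (2 * n + b) (2 * n + d)) := by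
  have h1 : RR γ (Z (2 * n + a)) (Z (2 * n + b)) := h
  have h2 : RR γ (Z (2 * n + c)) (Z (2 * n + d)) := h'
  have h3 := h1.append ((RR.refl [1]).append (h2.append (RR.refl [2, 1])))
  exact h3

theorem le_mod (hn : 1 ≤ n) (hp : MWZ.Per n (RR γ)) {i j : ℕ} (h : i ≡ j [MOD n]) :
    Le n γ i j :=
  yw_em (em_mod hn hp h) (em_mod hn hp (h.mul_left (n - 1)))

/-- `0^a` in front, `0^c` behind the first `1` -/
theorem yw_mul (k l : ℕ) {a b a' b' : ℕ} (h : RR γ (Yw a b) (Yw a' b')) :
    RR γ (Yw (k + a) (b + l)) (Yw (k + a') (b' + l)) := by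
  have h1 := rr_left (Z k) (h.sub (fun c => if c = 2 then Z l ++ [2] else [c]))
  have e : ∀ x y : ℕ, Z k ++ (Yw x y).flatMap (fun c => if c = 2 then Z l ++ [2] else [c]) =
      Yw (k + x) (y + l) := by
    intro x y
    have hz : ∀ m, (Z m).flatMap (fun c => if c = 2 then Z l ++ [2] else [c]) = Z m := by
      intro m
      induction m with
      | zero => rfl
      | succ m ih =>
        rw [show Z (m + 1) = 0 :: Z m from rfl, List.flatMap_cons, ih]; rfl
    have e1 : Yw (k + x) (y + l) = Z k ++ Z x ++ 1 :: (Z y ++ Z l ++ [2, 1]) := by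
      rw [← z_add k x, ← z_add y l]; rfl
    have e2 : ([2, 1] : List ℕ).flatMap (fun c => if c = 2 then Z l ++ [2] else [c]) =
        Z l ++ [2, 1] := by simp
    rw [e1]
    unfold Yw
    rw [List.flatMap_append, List.flatMap_cons, List.flatMap_append, hz, hz, e2]
    simp only [List.append_assoc, List.cons_append]
    rfl
  rw [e, e] at h1
  exact h1

/-- identities keep the label -/
theorem le_id (hn : 1 ≤ n) (hp : MWZ.Per n (RR γ)) {i j i' j' : ℕ}
    (h : RR γ (Yw i j) (Yw i' j')) : Le n γ i i' := by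
  have hc : RR γ (Z (i + j)) (Z (i' + j')) := by
    have h1 := h.filter (fun c => decide (c = 0))
    have e : ∀ a b : ℕ, (Yw a b).filter (fun c => decide (c = 0)) = Z (a + b) := by
      intro a b
      have hz : ∀ m, (Z m).filter (fun c => decide (c = 0)) = Z m := by
        intro m
        rw [List.filter_eq_self]
        intro x hx
        rw [List.eq_of_mem_replicate hx]; simp
      unfold Yw
      rw [List.filter_append, List.filter_cons_of_neg (by simp), List.filter_append, hz, hz, z_add]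
      simp
    rw [e, e] at h1
    exact h1
  have hE := em_of hn hp hc
  -- exponents behind
  have h1 := yw_mul (2 * n) (2 * n + (n - 1) * (i + j)) h
  have key : ∀ a b : ℕ, Em n γ ((n - 1) * a) ((n - 1) * (a + b) + b) := by
    intro a b
    apply em_mod hn hp
    have e : (n - 1) * (a + b) + b = (n - 1) * a + n * b := by
      obtain ⟨m, rfl⟩ : ∃ m, n = m + 1 := ⟨n - 1, by omega⟩
      simp only [Nat.add_sub_cancel]
      ring
    rw [e]
    have : 0 ≡ n * b [MOD n] := ((Nat.modEq_zero_iff_dvd).2 (dvd_mul_right n b)).symm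
    simpa using this.add_left ((n - 1) * a)
  have k1 : Em n γ ((n - 1) * i) (j + (n - 1) * (i + j)) := by
    have := key i j
    rwa [Nat.add_comm] at this
  have k2 : Em n γ ((n - 1) * i') (j' + (n - 1) * (i + j)) := by
    have h2 := (key i' j').trans (((hE.mul hn hp (n - 1)).symm).add hn hp (Em.rfl' j'))
    rwa [Nat.add_comm ((n - 1) * (i + j)) j'] at h2
  have s1 : RR γ (Fw n i) (Yw (2 * n + i) (j + (2 * n + (n - 1) * (i + j)))) := by
    have := yw_em (Em.rfl' (n := n) (γ := γ) i) k1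
    have e : 2 * n + (j + (n - 1) * (i + j)) = j + (2 * n + (n - 1) * (i + j)) := by ring
    rw [e] at this
    exact this
  have s2 : RR γ (Fw n i') (Yw (2 * n + i') (j' + (2 * n + (n - 1) * (i + j)))) := by
    have := yw_em (Em.rfl' (n := n) (γ := γ) i') k2
    have e : 2 * n + (j' + (n - 1) * (i + j)) = j' + (2 * n + (n - 1) * (i + j)) := by ring
    rw [e] at this
    exact this
  exact γ.trans s1 (γ.trans h1 s2.symm)

/-- a shift by one gives `x²yx²ty ≈ x³yxty` up to exponents -/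
theorem le_rc (hn : 1 ≤ n) (hp : MWZ.Per n (RR γ)) {m : ℕ} (h : Le n γ m (m + 1)) :
    RR γ (Yw (2 * n + 2) (2 * n + 2)) (Yw (2 * n + 3) (2 * n + 1)) := by
  have h1 := yw_mul ((n - 1) * m + 2) (m + 2) h
  have a1 : Em n γ 2 ((n - 1) * m + 2 + m) := by
    apply em_mod hn hp
    have e : (n - 1) * m + 2 + m = 2 + n * m := by
      obtain ⟨k, rfl⟩ : ∃ k, n = k + 1 := ⟨n - 1, by omega⟩
      simp only [Nat.add_sub_cancel]; ring
    rw [e]
    simpa using (((Nat.modEq_zero_iff_dvd).2 (dvd_mul_right n m)).symm).add_left 2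
  have a2 : Em n γ 2 ((n - 1) * m + (m + 2)) := by
    have e : (n - 1) * m + (m + 2) = (n - 1) * m + 2 + m := by ring
    rw [e]; exact a1
  have a3 : Em n γ 3 ((n - 1) * m + 2 + (m + 1)) := by
    have := a1.add hn hp (Em.rfl' 1)
    have e : (n - 1) * m + 2 + (m + 1) = (n - 1) * m + 2 + m + 1 := by ring
    rw [e]; exact this
  have a4 : Em n γ 1 ((n - 1) * (m + 1) + (m + 2)) := by
    apply em_mod hn hp
    have e : (n - 1) * (m + 1) + (m + 2) = 1 + n * (m + 1) := by
      obtain ⟨k, rfl⟩ : ∃ k, n = k + 1 := ⟨n - 1, by omega⟩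
      simp only [Nat.add_sub_cancel]; ring
    rw [e]
    simpa using (((Nat.modEq_zero_iff_dvd).2 (dvd_mul_right n (m + 1))).symm).add_left 1
  have s1 := yw_em a1 a2
  have s2 := yw_em a3 a4
  have e1 : Yw (2 * n + ((n - 1) * m + 2 + m)) (2 * n + ((n - 1) * m + (m + 2))) =
      Yw ((n - 1) * m + 2 + (2 * n + m)) (2 * n + (n - 1) * m + (m + 2)) := by
    congr 1 <;> ring
  have e2 : Yw (2 * n + ((n - 1) * m + 2 + (m + 1))) (2 * n + ((n - 1) * (m + 1) + (m + 2))) =
      Yw ((n - 1) * m + 2 + (2 * n + (m + 1))) (2 * n + (n - 1) * (m + 1) + (m + 2)) := by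
    congr 1 <;> ring
  rw [e1] at s1
  rw [e2] at s2
  exact γ.trans s1 (γ.trans h1 s2.symm)

end

end Pool.Agent.Helper70_MWX
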