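import Pool.Agent.Helper70_MWX.Lab

/-!
# The label pentagon, part 2: the general pentagon (helper70)
-/

set_option autoImplicit false

namespace Pool.Agent.Helper70_MWX

open Pool.Agent.Helper14_MV Pool.Agent.Helper2_MV
open Pool.Agent.MWK (pre pre_append pre_append_mem pre_asymm mem_split pre_cons_self not_mem_pre)
open Pool.Agent.MWF (gaml)
open Pool.Agent.MWGN (nn)
open Pool.Agent.MWGQ (pw)

/-! ### words -/

theorem count_flat (u : List ℕ) (f : ℕ → List ℕ) (c d : ℕ) :
    u.count c * (f c).count d ≤ (u.flatMap f).count d := by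
  induction u with
  | nil => simp
  | cons a u ih =>
    rw [List.flatMap_cons, List.count_append, List.count_cons]
    by_cases h : a = c
    · subst h
      simp only [beq_self_eq_true, if_true]
      rw [Nat.add_mul, Nat.one_mul]
      omega
    · have : (a == c) = false := by simpa using h
      simp only [this]
      simp only [Bool.false_eq_true, if_false, Nat.add_zero]
      omega

theorem mult_flat {u : List ℕ} {f : ℕ → List ℕ} {c d m : ℕ} (hc : m ≤ u.count c)
    (hd : d ∈ f c) (p q : List ℕ) : m ≤ (p ++ u.flatMap f ++ q).count d := by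
  have h1 := count_flat u f c d
  have h2 : 1 ≤ (f c).count d := List.one_le_count_iff.2 hd
  have h3 : u.count c ≤ u.count c * (f c).count d := Nat.le_mul_of_pos_right _ h2
  rw [List.count_append, List.count_append]
  omega

theorem pre_filter (S : ℕ → Bool) {q : ℕ} (hq : S q = true) (w : List ℕ) :
    pre (w.filter S) q = (pre w q).filter S := by
  induction w with
  | nil => rfl
  | cons a w ih =>
    by_cases ha : a = q
    · subst ha
      rw [List.filter_cons_of_pos hq, pre_cons_self, pre_cons_self]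
      rfl
    · have e1 : pre (a :: w) q = a :: pre w q := by
        unfold pre
        rw [List.takeWhile_cons_of_pos (by simpa using ha)]
      rw [e1]
      by_cases hs : S a = true
      · rw [List.filter_cons_of_pos hs, List.filter_cons_of_pos hs]
        have e2 : pre (a :: w.filter S) q = a :: pre (w.filter S) q := by
          unfold pre
          rw [List.takeWhile_cons_of_pos (by simpa using ha)]
        rw [e2, ih]
      · rw [List.filter_cons_of_neg hs, List.filter_cons_of_neg hs, ih]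

theorem nn_filter (S : ℕ → Bool) {c q : ℕ} (hq : S q = true) (hc : S c = true) (w : List ℕ) :
    nn (w.filter S) c q = nn w c q := by
  unfold nn
  rw [pre_filter S hq, List.count_filter hc]

/-- a word with one letter after filtering -/
theorem filt_one {l : List ℕ} {S : ℕ → Bool} {x : ℕ} (hx : S x = true)
    (h : ∀ c ∈ l, S c = true → c = x) : l.filter S = List.replicate (l.count x) x := by
  rw [List.eq_replicate_iff]
  constructor
  · rw [← List.count_filter hx (l := l)]
    rw [List.count_eq_length.2]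
    intro b hb
    rw [List.mem_filter] at hb
    exact (h b hb.1 hb.2).symm
  · intro b hb
    rw [List.mem_filter] at hb
    exact h b hb.1 hb.2

/-! ### the class of the labels -/

/-- the types: `4` is the last separator, `1` is light with the pin `4`, no `0` behind `4` -/
structure Kt (w : List ℕ) : Prop where
  s : w.count 4 = 1
  y : w.count 1 = 2
  y4 : nn w 1 4 = 1
  x4 : nn w 0 4 = w.count 0

/-- the letters `0`, `1`, `4` -/
def S3 : ℕ → Bool := fun c => decide (c = 0 ∨ c = 1 ∨ c = 4)

theorem kt_filter {w : List ℕ} (h : Kt w) :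
    ∃ j, w.filter S3 = Z (nn w 0 1) ++ 1 :: (Z j ++ [4, 1]) := by
  have h1 : 1 ∈ w := by
    rw [← List.one_le_count_iff]; rw [h.y]; omega
  have h14 : 1 ∈ pre w 4 := by
    rw [← List.one_le_count_iff]
    have := h.y4
    unfold nn at this
    omega
  have h41 : 4 ∉ pre w 1 := pre_asymm h14
  obtain ⟨B, hB⟩ := mem_split h1
  have h4 : 4 ∈ B := by
    have h5 : 4 ∈ w := by rw [← List.one_le_count_iff]; rw [h.s]
    rw [hB] at h5
    rcases List.mem_append.1 h5 with h6 | h6
    · exact absurd h6 h41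
    · rcases List.mem_cons.1 h6 with h7 | h7
      · omega
      · exact h7
  obtain ⟨C, hC⟩ := mem_split h4
  have hw : w = pre w 1 ++ 1 :: (pre B 4 ++ 4 :: C) := by rw [← hC]; exact hB
  have hp4 : pre w 4 = pre w 1 ++ 1 :: pre B 4 := by
    have e : w = (pre w 1 ++ [1]) ++ (pre B 4 ++ 4 :: C) := by
      rw [List.append_assoc]; exact hw
    have h5 : 4 ∉ pre w 1 ++ [1] := by
      intro h6
      rcases List.mem_append.1 h6 with h7 | h7
      · exact h41 h7
      · have := List.mem_singleton.1 h7; omega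
    have h6 : pre w 4 = (pre w 1 ++ [1]) ++ pre (pre B 4 ++ 4 :: C) 4 := by
      conv_lhs => rw [e]
      exact pre_append h5 _
    rw [h6, ← hC]
    simp
  have n1 : 1 ∉ pre w 1 := not_mem_pre w 1
  have n4 : 4 ∉ pre B 4 := not_mem_pre B 4
  have cB : (pre B 4).count 1 = 0 := by
    have := h.y4
    unfold nn at this
    rw [hp4, List.count_append, List.count_cons, List.count_eq_zero.2 n1] at this
    simp at this
    exact this
  have c1 : C.count 1 = 1 := by
    have := h.y
    rw [hw, List.count_append, List.count_cons, List.count_append, List.count_cons,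
      List.count_eq_zero.2 n1, cB] at this
    simp at this
    omega
  have c4 : C.count 4 = 0 := by
    have := h.s
    rw [hw, List.count_append, List.count_cons, List.count_append, List.count_cons,
      List.count_eq_zero.2 h41, List.count_eq_zero.2 n4] at this
    simp at this
    exact this
  have c0 : C.count 0 = 0 := by
    have := h.x4
    unfold nn at this
    rw [hp4] at this
    have h5 : w.count 0 = (pre w 1 ++ 1 :: pre B 4).count 0 + C.count 0 := by
      conv_lhs => rw [hw]
      simp only [List.count_append, List.count_cons]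
      simp
      omega
    omega
  refine ⟨(pre B 4).count 0, ?_⟩
  have f1 : (pre w 1).filter S3 = Z (nn w 0 1) := by
    refine filt_one (by rfl) ?_
    intro c hc hS
    unfold S3 at hS
    rcases of_decide_eq_true hS with h5 | h5 | h5
    · exact h5
    · rw [h5] at hc; exact absurd hc n1
    · rw [h5] at hc; exact absurd hc h41
  have f2 : (pre B 4).filter S3 = Z ((pre B 4).count 0) := by
    refine filt_one (by rfl) ?_
    intro c hc hS
    unfold S3 at hS
    rcases of_decide_eq_true hS with h5 | h5 | h5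
    · exact h5
    · rw [h5] at hc; exact absurd hc (List.count_eq_zero.1 cB)
    · rw [h5] at hc; exact absurd hc n4
  have f3 : C.filter S3 = [1] := by
    have := filt_one (l := C) (S := S3) (x := 1) (by rfl) (by
      intro c hc hS
      unfold S3 at hS
      rcases of_decide_eq_true hS with h5 | h5 | h5
      · rw [h5] at hc; exact absurd hc (List.count_eq_zero.1 c0)
      · exact h5
      · rw [h5] at hc; exact absurd hc (List.count_eq_zero.1 c4))
    rw [this, c1]; rfl
  conv_lhs => rw [hw]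
  rw [List.filter_append, List.filter_cons_of_pos (by rfl), List.filter_append,
    List.filter_cons_of_pos (by rfl), f1, f2, f3]

/-- two blocks -/
theorem two_filter {w : List ℕ} (h : w.count 4 = 1) :
    ∃ e, w.count 0 = nn w 0 4 + e ∧
      w.filter (fun c => decide (c = 0 ∨ c = 4)) = Z (nn w 0 4) ++ 4 :: Z e := by
  have h4 : 4 ∈ w := by rw [← List.one_le_count_iff]; rw [h]
  obtain ⟨C, hC⟩ := mem_split h4
  have n4 : 4 ∉ pre w 4 := not_mem_pre w 4
  have c4 : C.count 4 = 0 := by
    rw [hC, List.count_append, List.count_cons, List.count_eq_zero.2 n4] at h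
    simp at h
    exact h
  refine ⟨C.count 0, ?_, ?_⟩
  · conv_lhs => rw [hC]
    rw [List.count_append, List.count_cons]
    rfl
  · have f1 : (pre w 4).filter (fun c => decide (c = 0 ∨ c = 4)) = Z (nn w 0 4) := by
      refine filt_one (by rfl) ?_
      intro c hc hS
      rcases of_decide_eq_true hS with h5 | h5
      · exact h5
      · rw [h5] at hc; exact absurd hc n4
    have f2 : C.filter (fun c => decide (c = 0 ∨ c = 4)) = Z (C.count 0) := by
      refine filt_one (by rfl) ?_
      intro c hc hS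
      rcases of_decide_eq_true hS with h5 | h5
      · exact h5
      · rw [h5] at hc; exact absurd hc (List.count_eq_zero.1 c4)
    conv_lhs => rw [hC]
    rw [List.filter_append, List.filter_cons_of_pos (by rfl), f1, f2]

section
variable {n : ℕ} {γ : FIC}

/-- the class of the labels -/
structure Kb (n : ℕ) (γ : FIC) (m : ℕ) (w : List ℕ) : Prop where
  t : Kt w
  l : Le n γ (nn w 0 1) m

/-- no `0` appears behind a separator -/
def NoE (γ : FIC) : Prop := ∀ c c' e : ℕ, RR γ (Z c ++ [2]) (Z c' ++ 2 :: Z e) → e = 0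

/-- the light letter is kept -/
theorem iso_y (H : Iso3 γ) {w w' : List ℕ} (h : RR γ w w') (s : ℕ) (hs1 : s ≠ 1)
    (hs : w.count s = 1) (hy : w.count 1 = 2) (hy4 : nn w 1 s = 1) :
    w'.count s = 1 ∧ w'.count 1 = 2 ∧ nn w' 1 s = 1 := by
  have key : ∀ w : List ℕ, w.count s = 1 → w.count 1 = 2 → nn w 1 s = 1 →
      w.filter (fun c => decide (c = 1 ∨ c = s)) = [1, s, 1] := by
    intro w hs hy hy4
    have hm : s ∈ w := by rw [← List.one_le_count_iff]; rw [hs]
    obtain ⟨C, hC⟩ := mem_split hm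
    have n4 : s ∉ pre w s := not_mem_pre w s
    have c4 : C.count s = 0 := by
      rw [hC, List.count_append, List.count_cons, List.count_eq_zero.2 n4] at hs
      simp at hs
      exact hs
    have p1 : (pre w s).count 1 = 1 := hy4
    have c1 : C.count 1 = 1 := by
      have hb : (s == 1) = false := by simpa using hs1
      rw [hC, List.count_append, List.count_cons, p1, hb] at hy
      simp at hy
      omega
    have f1 : (pre w s).filter (fun c => decide (c = 1 ∨ c = s)) = [1] := by
      have := filt_one (l := pre w s) (S := fun c => decide (c = 1 ∨ c = s)) (x := 1)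
        (by simp) (by
          intro c hc hS
          rcases of_decide_eq_true hS with h5 | h5
          · exact h5
          · rw [h5] at hc; exact absurd hc n4)
      rw [this, p1]; rfl
    have f2 : C.filter (fun c => decide (c = 1 ∨ c = s)) = [1] := by
      have := filt_one (l := C) (S := fun c => decide (c = 1 ∨ c = s)) (x := 1)
        (by simp) (by
          intro c hc hS
          rcases of_decide_eq_true hS with h5 | h5
          · exact h5
          · rw [h5] at hc; exact absurd hc (List.count_eq_zero.1 c4))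
      rw [this, c1]; rfl
    conv_lhs => rw [hC]
    rw [List.filter_append, List.filter_cons_of_pos (by simp), f1, f2]
    rfl
  have h1 := h.filter (fun c => decide (c = 1 ∨ c = s))
  rw [key w hs hy hy4] at h1
  have h2 := h1.sub (fun c => if c = 1 then [0] else [1])
  have e : ([1, s, 1] : List ℕ).flatMap (fun c => if c = 1 then [0] else [1]) = [0, 1, 0] := by
    simp [hs1]
  rw [e] at h2
  have h3 := H _ h2
  -- the word is `1 s 1`
  have h4 : w'.filter (fun c => decide (c = 1 ∨ c = s)) = [1, s, 1] := by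
    have h5 : ∀ l : List ℕ, (∀ c ∈ l, c = 1 ∨ c = s) →
        (l.flatMap (fun c => if c = 1 then [0] else [1])).flatMap
          (fun c => if c = 0 then [1] else [s]) = l := by
      intro l hl
      induction l with
      | nil => rfl
      | cons a l ih =>
        rw [List.flatMap_cons, List.flatMap_append, ih (fun c hc => hl c (List.mem_cons_of_mem _ hc))]
        rcases hl a (by simp) with h6 | h6
        · subst h6; simp
        · subst h6; simp [hs1]
    have h6 := h5 (w'.filter (fun c => decide (c = 1 ∨ c = s))) (by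
      intro c hc
      have := (List.mem_filter.1 hc).2
      exact of_decide_eq_true this)
    rw [h3] at h6
    rw [← h6]
    simp
  have hSs : (fun c => decide (c = 1 ∨ c = s)) s = true := by simp
  have hS1 : (fun c => decide (c = 1 ∨ c = s)) 1 = true := by simp
  refine ⟨?_, ?_, ?_⟩
  · rw [← List.count_filter (p := fun c => decide (c = 1 ∨ c = s)) hSs, h4]
    have : (1 == s) = false := by simpa using fun h => hs1 h.symm
    simp [List.count_cons, this]
  · rw [← List.count_filter (p := fun c => decide (c = 1 ∨ c = s)) hS1, h4]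
    have : (s == 1) = false := by simpa using hs1
    simp [List.count_cons, this]
  · rw [← nn_filter (fun c => decide (c = 1 ∨ c = s)) hSs hS1, h4]
    unfold nn pre
    have : (1 : ℕ) ≠ s := fun h => hs1 h.symm
    simp [List.takeWhile_cons, this]

/-- `γ` keeps the class -/
theorem kb_keep (hn : 1 ≤ n) (hp : MWZ.Per n (RR γ)) (H : Iso3 γ) (hE : NoE γ) {m : ℕ}
    {w w' : List ℕ} (h : RR γ w w') (hw : Kb n γ m w) : Kb n γ m w' := by
  obtain ⟨s', y', y4'⟩ := iso_y H h 4 (by norm_num) hw.t.s hw.t.y hw.t.y4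
  have hx' : nn w' 0 4 = w'.count 0 := by
    obtain ⟨e, he1, he2⟩ := two_filter hw.t.s
    obtain ⟨e', he1', he2'⟩ := two_filter s'
    have h1 := h.filter (fun c => decide (c = 0 ∨ c = 4))
    rw [he2, he2'] at h1
    have he0 : e = 0 := by have := hw.t.x4; omega
    rw [he0] at h1
    have h2 := h1.sub (fun c => if c = 4 then [2] else [c])
    have hz : ∀ m, (Z m).flatMap (fun c => if c = 4 then [2] else [c]) = Z m := by
      intro m
      induction m with
      | zero => rfl
      | succ m ih => rw [show Z (m + 1) = 0 :: Z m from rfl, List.flatMap_cons, ih]; rfl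
    rw [List.flatMap_append, List.flatMap_append, List.flatMap_cons, List.flatMap_cons, hz, hz,
      hz, hz] at h2
    have h3 := hE _ _ _ h2
    omega
  have ht' : Kt w' := ⟨s', y', y4', hx'⟩
  refine ⟨ht', ?_⟩
  obtain ⟨j, hj⟩ := kt_filter hw.t
  obtain ⟨j', hj'⟩ := kt_filter ht'
  have h1 := h.filter S3
  rw [hj, hj'] at h1
  have h2 := h1.sub (fun c => if c = 4 then [2] else [c])
  have hz : ∀ m, (Z m).flatMap (fun c => if c = 4 then [2] else [c]) = Z m := by
    intro m
    induction m with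
    | zero => rfl
    | succ m ih => rw [show Z (m + 1) = 0 :: Z m from rfl, List.flatMap_cons, ih]; rfl
  have e : ∀ a b : ℕ, (Z a ++ 1 :: (Z b ++ [4, 1])).flatMap (fun c => if c = 4 then [2] else [c]) =
      Yw a b := by
    intro a b
    rw [List.flatMap_append, List.flatMap_cons, List.flatMap_append, hz, hz]
    rfl
  rw [e, e] at h2
  exact (le_id hn hp h2).symm.trans hw.l

/-- insertion of multiples of `n` keeps the class -/
theorem kb_ins (hn : 1 ≤ n) (hp : MWZ.Per n (RR γ)) {m : ℕ} {A E E' B X : List ℕ} {k : ℕ}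
    (hk : n ∣ k) (hX : ∀ d ∈ X, d ∈ E ++ E') (h4 : 4 ∉ E ++ E') (h1 : 1 ∉ X) :
    Kb n γ m (A ++ (E ++ (E' ++ B))) ↔ Kb n γ m (A ++ (E ++ (pw k X ++ (E' ++ B)))) := by
  have h4E : 4 ∉ E := fun h => h4 (List.mem_append_left _ h)
  have h4E' : 4 ∉ E' := fun h => h4 (List.mem_append_right _ h)
  have h4X : 4 ∉ pw k X := fun h => h4 (hX _ (MWGX.mem_pw h))
  have h1X : 1 ∉ pw k X := fun h => h1 (MWGX.mem_pw h)
  have c : ∀ d, (A ++ (E ++ (pw k X ++ (E' ++ B)))).count d =
      (A ++ (E ++ (E' ++ B))).count d + k * X.count d := by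
    intro d
    simp only [List.count_append, MWGX.count_pw]
    omega
  have c4 : (A ++ (E ++ (pw k X ++ (E' ++ B)))).count 4 = (A ++ (E ++ (E' ++ B))).count 4 := by
    rw [c, List.count_eq_zero.2 (fun h => h4 (hX _ h))]; simp
  have c1 : (A ++ (E ++ (pw k X ++ (E' ++ B)))).count 1 = (A ++ (E ++ (E' ++ B))).count 1 := by
    rw [c, List.count_eq_zero.2 h1]; simp
  -- in front of `4`
  have n14 : nn (A ++ (E ++ (pw k X ++ (E' ++ B)))) 1 4 = nn (A ++ (E ++ (E' ++ B))) 1 4 := by
    unfold nn
    by_cases hA : 4 ∈ A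
    · rw [pre_append_mem hA, pre_append_mem hA]
    · rw [pre_append hA, pre_append hA, pre_append h4E, pre_append h4E, pre_append h4X,
        pre_append h4E']
      simp only [List.count_append, List.count_eq_zero.2 h1X]
      omega
  have n04 : nn (A ++ (E ++ (pw k X ++ (E' ++ B)))) 0 4 =
      (A ++ (E ++ (pw k X ++ (E' ++ B)))).count 0 ↔
      nn (A ++ (E ++ (E' ++ B))) 0 4 = (A ++ (E ++ (E' ++ B))).count 0 := by
    unfold nn
    by_cases hA : 4 ∈ A
    · rw [pre_append_mem hA, pre_append_mem hA, c]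
      by_cases h0 : 0 ∈ X
      · have h5 : 1 ≤ (E ++ E').count 0 := List.one_le_count_iff.2 (hX _ h0)
        have h6 : (pre A 4).count 0 ≤ A.count 0 := MWK.count_pre_le A 0 4
        simp only [List.count_append] at h5 ⊢
        constructor <;> intro h <;> omega
      · rw [List.count_eq_zero.2 h0]
        simp
    · rw [pre_append hA, pre_append hA, pre_append h4E, pre_append h4E, pre_append h4X,
        pre_append h4E']
      simp only [List.count_append, MWGX.count_pw]
      omega
  have h5 : k * X.count 0 ≡ 0 [MOD n] := (Nat.modEq_zero_iff_dvd).2 (dvd_mul_of_dvd_left hk _)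
  have lab : nn (A ++ (E ++ (pw k X ++ (E' ++ B)))) 0 1 ≡ nn (A ++ (E ++ (E' ++ B))) 0 1
      [MOD n] := by
    unfold nn
    by_cases hA : 1 ∈ A
    · rw [pre_append_mem hA, pre_append_mem hA]
    · by_cases hE : 1 ∈ E
      · rw [pre_append hA, pre_append hA, pre_append_mem hE, pre_append_mem hE]
      · rw [pre_append hA, pre_append hA, pre_append hE, pre_append hE, pre_append h1X]
        simp only [List.count_append, MWGX.count_pw]
        have h6 := (h5.add_right ((pre (E' ++ B) 1).count 0)).add_left (List.count 0 E)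
        have h7 := h6.add_left (List.count 0 A)
        simpa using h7
  constructor
  · rintro ⟨⟨s, y, y4, x4⟩, l⟩
    exact ⟨⟨by rw [c4]; exact s, by rw [c1]; exact y, by rw [n14]; exact y4, n04.2 x4⟩,
      (le_mod hn hp lab).trans l⟩
  · rintro ⟨⟨s, y, y4, x4⟩, l⟩
    exact ⟨⟨by rw [← c4]; exact s, by rw [← c1]; exact y, by rw [← n14]; exact y4, n04.1 x4⟩,
      (le_mod hn hp lab.symm).trans l⟩

/-- both sides are outside the class -/
theorem not_kb {m : ℕ} {w : List ℕ} (h : 2 ≤ w.count 4 ∨ 3 ≤ w.count 1) : ¬ Kb n γ m w := by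
  intro hw
  have h1 := hw.t.s
  have h2 := hw.t.y
  omega

theorem pw_comm (k : ℕ) (X : List ℕ) : X ++ pw k X = pw k X ++ X := by
  induction k with
  | zero => simp [pw]
  | succ k ih =>
    rw [MWGX.pw_succ, List.append_assoc, ← ih]

/-- `x y` in the class: thickening of `x` -/
theorem thk (hn : 1 ≤ n) (hp : MWZ.Per n (RR γ)) {m : ℕ} {P Q : List ℕ}
    (a b : ℕ) (hab : a = 0 ∧ b = 1 ∨ a = 1 ∧ b = 0)
    (h0 : 3 ≤ (P ++ a :: b :: Q).count 0) (h1 : 2 ≤ (P ++ a :: b :: Q).count 1) :
    RR (gaml (Kb n γ m)) (P ++ a :: b :: Q)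
      (P ++ (Z (2 * n) ++ a :: b :: (Z (2 * n) ++ Q))) := by
  apply MWF.RR_gaml
  intro f p q
  set X := f 0 with hX
  set Y := f 1 with hY
  have hk : n ∣ 2 * n := dvd_mul_left n 2
  have m0 : ∀ d ∈ X, 3 ≤ (p ++ (P ++ a :: b :: Q).flatMap f ++ q).count d :=
    fun d hd => mult_flat h0 hd p q
  have m1 : ∀ d ∈ Y, 2 ≤ (p ++ (P ++ a :: b :: Q).flatMap f ++ q).count d :=
    fun d hd => mult_flat h1 hd p q
  have h0' : 3 ≤ (P ++ (Z (2 * n) ++ a :: b :: (Z (2 * n) ++ Q))).count 0 := by
    simp only [List.count_append, List.count_cons] at h0 ⊢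
    omega
  have h1' : 2 ≤ (P ++ (Z (2 * n) ++ a :: b :: (Z (2 * n) ++ Q))).count 1 := by
    simp only [List.count_append, List.count_cons] at h1 ⊢
    omega
  have m0' : ∀ d ∈ X, 3 ≤ (p ++ (P ++ (Z (2 * n) ++ a :: b :: (Z (2 * n) ++ Q))).flatMap f ++
      q).count d := fun d hd => mult_flat h0' hd p q
  have m1' : ∀ d ∈ Y, 2 ≤ (p ++ (P ++ (Z (2 * n) ++ a :: b :: (Z (2 * n) ++ Q))).flatMap f ++
      q).count d := fun d hd => mult_flat h1' hd p q
  by_cases hbad : 4 ∈ X ∨ 4 ∈ Y ∨ 1 ∈ X
  · constructor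
    · intro h
      exact absurd h (not_kb (by
        rcases hbad with h2 | h2 | h2
        · left; have := m0 _ h2; omega
        · left; exact m1 _ h2
        · right; exact m0 _ h2))
    · intro h
      exact absurd h (not_kb (by
        rcases hbad with h2 | h2 | h2
        · left; have := m0' _ h2; omega
        · left; exact m1' _ h2
        · right; exact m0' _ h2))
  · have h4X : 4 ∉ X := fun h => hbad (Or.inl h)
    have h4Y : 4 ∉ Y := fun h => hbad (Or.inr (Or.inl h))
    have h1X : 1 ∉ X := fun h => hbad (Or.inr (Or.inr h))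
    have e1 : p ++ (P ++ a :: b :: Q).flatMap f ++ q =
        (p ++ P.flatMap f) ++ ([] ++ ((f a ++ f b) ++ (Q.flatMap f ++ q))) := by
      simp [List.flatMap_append, List.flatMap_cons, List.append_assoc]
    have e2 : p ++ (P ++ (Z (2 * n) ++ a :: b :: (Z (2 * n) ++ Q))).flatMap f ++ q =
        (p ++ P.flatMap f) ++ ([] ++ (pw (2 * n) X ++ ((f a ++ f b) ++
          (pw (2 * n) X ++ (Q.flatMap f ++ q))))) := by
      simp only [List.flatMap_append, List.flatMap_cons, MWGX.flat_rep, List.append_assoc,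
        List.nil_append, hX]
    have hsub : ∀ d ∈ X, d ∈ f a ++ f b := by
      intro d hd
      rcases hab with ⟨rfl, rfl⟩ | ⟨rfl, rfl⟩
      · exact List.mem_append_left _ hd
      · exact List.mem_append_right _ hd
    have h4ab : 4 ∉ f a ++ f b := by
      intro h
      rcases hab with ⟨rfl, rfl⟩ | ⟨rfl, rfl⟩ <;> rcases List.mem_append.1 h with h | h
      · exact h4X h
      · exact h4Y h
      · exact h4Y h
      · exact h4X h
    rw [e1, e2]
    have s1 := kb_ins (γ := γ) (m := m) hn hp (A := p ++ P.flatMap f) (E := [])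
      (E' := f a ++ f b) (B := Q.flatMap f ++ q) (X := X) hk (by simpa using hsub)
      (by simpa using h4ab) h1X
    have s2 := kb_ins (γ := γ) (m := m) hn hp (A := (p ++ P.flatMap f) ++ pw (2 * n) X)
      (E := f a ++ f b) (E' := []) (B := Q.flatMap f ++ q) (X := X) hk (by simpa using hsub)
      (by simpa using h4ab) h1X
    rw [s1]
    have e3 : (p ++ P.flatMap f) ++ ([] ++ (pw (2 * n) X ++ ((f a ++ f b) ++
        (Q.flatMap f ++ q)))) = ((p ++ P.flatMap f) ++ pw (2 * n) X) ++ ((f a ++ f b) ++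
          ([] ++ (Q.flatMap f ++ q))) := by simp [List.append_assoc]
    have e4 : (p ++ P.flatMap f) ++ ([] ++ (pw (2 * n) X ++ ((f a ++ f b) ++
        (pw (2 * n) X ++ (Q.flatMap f ++ q))))) = ((p ++ P.flatMap f) ++ pw (2 * n) X) ++
          ((f a ++ f b) ++ (pw (2 * n) X ++ ([] ++ (Q.flatMap f ++ q)))) := by
      simp [List.append_assoc]
    rw [e3, e4]
    exact s2

/-- exchange of adjacent factors: the numbers -/
theorem nn_exch {p A B R : List ℕ} {s : ℕ} (hA : s ∉ A) (hB : s ∉ B) (d : ℕ) :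
    nn (p ++ (A ++ (B ++ R))) d s = nn (p ++ (B ++ (A ++ R))) d s := by
  unfold nn
  by_cases hp : s ∈ p
  · rw [pre_append_mem hp, pre_append_mem hp]
  · rw [pre_append hp, pre_append hp, pre_append hA, pre_append hB, pre_append hB, pre_append hA]
    simp only [List.count_append]
    omega

theorem count_exch (p A B R : List ℕ) (d : ℕ) :
    (p ++ (A ++ (B ++ R))).count d = (p ++ (B ++ (A ++ R))).count d := by
  simp only [List.count_append]
  omega

/-- **the general pentagon** -/
theorem pentagon (hn : 1 ≤ n) (hp : MWZ.Per n (RR γ)) (H : Iso3 γ) (hE : NoE γ) (hM : ModF γ)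
    {Kc : List ℕ → Prop} (hK : ∀ w w', RR γ w w' → Kc w → Kc w')
    (hX : ∀ p A B R : List ℕ, (∀ d, d ∈ A ∨ d ∈ B → 2 ≤ (p ++ (A ++ (B ++ R))).count d) →
      Kc (p ++ (A ++ (B ++ R))) → Kc (p ++ (B ++ (A ++ R))))
    (hS : ∀ p X Y R : List ℕ, Kc (p ++ (X ++ (X ++ (Y ++ R)))) →
      (∀ d, d ∈ X ∨ d ∈ Y → 2 ≤ (p ++ (X ++ (X ++ (Y ++ R)))).count d) → 1 ∉ p → 1 ∉ X →
        1 ∈ Y → 0 ∉ X)
    {P Q : List ℕ} (h1P : 1 ∉ P) (hu0 : 3 ≤ (P ++ 0 :: 1 :: Q).count 0)
    (hut : Kt (P ++ 0 :: 1 :: Q)) (huc : Kc (P ++ 0 :: 1 :: Q)) :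
    Le n γ (P.count 0) (P.count 0 + 1) := by
  set m := P.count 0 + 1 with hm
  have hu1 : 2 ≤ (P ++ 0 :: 1 :: Q).count 1 := by rw [hut.y]
  have hv0 : 3 ≤ (P ++ 1 :: 0 :: Q).count 0 := by
    have e : (P ++ 1 :: 0 :: Q).count 0 = (P ++ 0 :: 1 :: Q).count 0 := by
      simp only [List.count_append, List.count_cons]
      omega
    rw [e]; exact hu0
  have hv1 : 2 ≤ (P ++ 1 :: 0 :: Q).count 1 := by
    have e : (P ++ 1 :: 0 :: Q).count 1 = (P ++ 0 :: 1 :: Q).count 1 := by
      simp only [List.count_append, List.count_cons]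
      omega
    rw [e]; exact hu1
  have hb : γ ≤ gaml (Kb n γ m) := MWF.le_gaml (fun w w' h hw => kb_keep hn hp H hE h hw)
  have hc : γ ≤ gaml Kc := MWF.le_gaml hK
  -- `(u, v)` keeps the types
  have exch : ∀ P' Q' : List ℕ, 3 ≤ (P' ++ 0 :: 1 :: Q').count 0 →
      2 ≤ (P' ++ 0 :: 1 :: Q').count 1 → RR (gaml Kc) (P' ++ 0 :: 1 :: Q') (P' ++ 1 :: 0 :: Q') := by
    intro P' Q' g0 g1
    apply MWF.RR_gaml
    intro f p q
    have m0 : ∀ d ∈ f 0, 2 ≤ (p ++ (P' ++ 0 :: 1 :: Q').flatMap f ++ q).count d :=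
      fun d hd => by have := mult_flat g0 hd p q; omega
    have m1 : ∀ d ∈ f 1, 2 ≤ (p ++ (P' ++ 0 :: 1 :: Q').flatMap f ++ q).count d :=
      fun d hd => mult_flat g1 hd p q
    have e1 : p ++ (P' ++ 0 :: 1 :: Q').flatMap f ++ q =
        (p ++ P'.flatMap f) ++ (f 0 ++ (f 1 ++ (Q'.flatMap f ++ q))) := by
      simp [List.flatMap_append, List.flatMap_cons, List.append_assoc]
    have e2 : p ++ (P' ++ 1 :: 0 :: Q').flatMap f ++ q =
        (p ++ P'.flatMap f) ++ (f 1 ++ (f 0 ++ (Q'.flatMap f ++ q))) := by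
      simp [List.flatMap_append, List.flatMap_cons, List.append_assoc]
    rw [e1] at m0 m1
    rw [e1, e2]
    constructor
    · intro h
      refine hX _ _ _ _ ?_ h
      rintro d (hd | hd)
      · exact m0 d hd
      · exact m1 d hd
    · intro h
      refine hX _ _ _ _ ?_ h
      rintro d (hd | hd)
      · rw [← count_exch]; exact m1 d hd
      · rw [← count_exch]; exact m0 d hd
  have ht := exch P Q hu0 hu1
  -- the three steps
  have s1 := thk (γ := γ) (m := m) hn hp (P := P) (Q := Q) 0 1 (Or.inl ⟨rfl, rfl⟩) hu0 hu1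
  have s3 := thk (γ := γ) (m := m) hn hp (P := P) (Q := Q) 1 0 (Or.inr ⟨rfl, rfl⟩) hv0 hv1
  have g0 : 3 ≤ ((P ++ Z (2 * n)) ++ 0 :: 1 :: (Z (2 * n) ++ Q)).count 0 := by
    simp only [List.count_append, List.count_cons] at hu0 ⊢
    omega
  have g1 : 2 ≤ ((P ++ Z (2 * n)) ++ 0 :: 1 :: (Z (2 * n) ++ Q)).count 1 := by
    simp only [List.count_append, List.count_cons] at hu1 ⊢
    omega
  have s2a := exch (P ++ Z (2 * n)) (Z (2 * n) ++ Q) g0 g1
  have s2b : RR (gaml (fun w => Kb n γ m w ∧ Kc w)) ((P ++ Z (2 * n)) ++ 0 :: 1 :: (Z (2 * n) ++ Q))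
      ((P ++ Z (2 * n)) ++ 1 :: 0 :: (Z (2 * n) ++ Q)) := by
    apply MWF.RR_gaml
    intro f p q
    have m0 : ∀ d ∈ f 0, 3 ≤ (p ++ ((P ++ Z (2 * n)) ++ 0 :: 1 :: (Z (2 * n) ++ Q)).flatMap f ++
        q).count d := fun d hd => mult_flat g0 hd p q
    have m1 : ∀ d ∈ f 1, 2 ≤ (p ++ ((P ++ Z (2 * n)) ++ 0 :: 1 :: (Z (2 * n) ++ Q)).flatMap f ++
        q).count d := fun d hd => mult_flat g1 hd p q
    obtain ⟨k, hk⟩ : ∃ k, 2 * n = k + 2 := ⟨2 * n - 2, by omega⟩
    set X := f 0 with hXd
    set Y := f 1 with hYd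
    set G := p ++ P.flatMap f with hG
    set R := pw (2 * n) X ++ (Q.flatMap f ++ q) with hR
    have e1 : p ++ ((P ++ Z (2 * n)) ++ 0 :: 1 :: (Z (2 * n) ++ Q)).flatMap f ++ q =
        (G ++ pw (2 * n) X) ++ (X ++ (Y ++ R)) := by
      simp only [List.flatMap_append, List.flatMap_cons, MWGX.flat_rep, List.append_assoc, hG, hR,
        hXd, hYd]
    have e2 : p ++ ((P ++ Z (2 * n)) ++ 1 :: 0 :: (Z (2 * n) ++ Q)).flatMap f ++ q =
        (G ++ pw (2 * n) X) ++ (Y ++ (X ++ R)) := by
      simp only [List.flatMap_append, List.flatMap_cons, MWGX.flat_rep, List.append_assoc, hG, hR,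
        hXd, hYd]
    rw [e1] at m0 m1
    rw [e1, e2]
    have mm : ∀ d, d ∈ X ∨ d ∈ Y → 2 ≤ ((G ++ pw (2 * n) X) ++ (X ++ (Y ++ R))).count d := by
      rintro d (hd | hd)
      · have := m0 d hd; omega
      · exact m1 d hd
    have mm' : ∀ d, d ∈ Y ∨ d ∈ X → 2 ≤ ((G ++ pw (2 * n) X) ++ (Y ++ (X ++ R))).count d := by
      intro d hd
      rw [← count_exch]
      exact mm d hd.symm
    have kc : Kc ((G ++ pw (2 * n) X) ++ (X ++ (Y ++ R))) ↔
        Kc ((G ++ pw (2 * n) X) ++ (Y ++ (X ++ R))) :=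
      ⟨hX _ _ _ _ mm, hX _ _ _ _ mm'⟩
    -- powers in front
    have ew : (G ++ pw (2 * n) X) ++ (X ++ (Y ++ R)) =
        (G ++ pw (k + 1) X) ++ (X ++ (X ++ (Y ++ R))) := by
      rw [hk]
      have : pw (k + 2) X = pw (k + 1) X ++ X := by
        rw [← pw_comm, ← MWGX.pw_succ]
      rw [this]
      simp only [List.append_assoc]
    have ew' : (G ++ pw (2 * n) X) ++ (Y ++ (X ++ R)) =
        (G ++ pw k X) ++ (X ++ (X ++ (Y ++ (X ++ R)))) := by
      rw [hk]
      have : pw (k + 2) X = pw k X ++ (X ++ X) := by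
        rw [show k + 2 = k + 1 + 1 from rfl, MWGX.pw_succ, MWGX.pw_succ, pw_comm,
          ← List.append_assoc X (pw k X) X, pw_comm, List.append_assoc]
      rw [this]
      simp only [List.append_assoc]
    -- the label
    have lab : Kc ((G ++ pw (2 * n) X) ++ (X ++ (Y ++ R))) →
        ((G ++ pw (2 * n) X) ++ (X ++ (Y ++ R))).count 1 = 2 →
        nn ((G ++ pw (2 * n) X) ++ (X ++ (Y ++ R))) 0 1 =
          nn ((G ++ pw (2 * n) X) ++ (Y ++ (X ++ R))) 0 1 := by
      intro hkc hc1
      have h1X : 1 ∉ X := by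
        intro h
        have := m0 1 h
        omega
      by_cases h1G : 1 ∈ G ++ pw (2 * n) X
      · unfold nn
        rw [pre_append_mem h1G, pre_append_mem h1G]
      · by_cases h1Y : 1 ∈ Y
        · have h0X : 0 ∉ X := by
            rw [ew] at hkc mm
            refine hS _ _ _ _ hkc mm ?_ h1X h1Y
            intro h
            apply h1G
            rcases List.mem_append.1 h with h2 | h2
            · exact List.mem_append_left _ h2
            · exact absurd (MWGX.mem_pw h2) h1X
          unfold nn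
          rw [pre_append h1G, pre_append h1G, pre_append h1X, pre_append_mem h1Y,
            pre_append_mem h1Y]
          simp only [List.count_append, List.count_eq_zero.2 h0X]
          omega
        · exact nn_exch h1X h1Y 0
    have kt : ∀ {w w' : List ℕ}, (∀ d, w.count d = w'.count d) → (w.count 4 = 1 →
        ∀ d, nn w d 4 = nn w' d 4) → Kt w → Kt w' := by
      intro w w' hc hn4 h
      have h4 := hn4 h.s
      exact ⟨by rw [← hc]; exact h.s, by rw [← hc]; exact h.y, by rw [← h4]; exact h.y4,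
        by rw [← h4, ← hc]; exact h.x4⟩
    have n4 : ((G ++ pw (2 * n) X) ++ (X ++ (Y ++ R))).count 4 = 1 → ∀ d,
        nn ((G ++ pw (2 * n) X) ++ (X ++ (Y ++ R))) d 4 =
          nn ((G ++ pw (2 * n) X) ++ (Y ++ (X ++ R))) d 4 := by
      intro h4 d
      refine nn_exch ?_ ?_ d
      · intro h; have := mm 4 (Or.inl h); omega
      · intro h; have := mm 4 (Or.inr h); omega
    have ce := count_exch (G ++ pw (2 * n) X) X Y R
    constructor
    · rintro ⟨hkb, hkc⟩
      refine ⟨⟨kt ce n4 hkb.t, ?_⟩, kc.1 hkc⟩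
      rw [← lab hkc hkb.t.y]
      exact hkb.l
    · rintro ⟨hkb, hkc⟩
      have hkc' := kc.2 hkc
      refine ⟨⟨kt (fun d => (ce d).symm) (fun h4 d => (n4 (by rw [ce]; exact h4) d).symm) hkb.t,
        ?_⟩, hkc'⟩
      rw [lab hkc' (by rw [ce]; exact hkb.t.y)]
      exact hkb.l
  have hs : RR (FIC.sup (FIC.inf (gaml (fun w => Kb n γ m w ∧ Kc w)) (gaml Kc)) (gaml (Kb n γ m)))
      (P ++ 0 :: 1 :: Q) (P ++ 1 :: 0 :: Q) := by
    have t1 := FIC.le_sup_right (FIC.inf (gaml (fun w => Kb n γ m w ∧ Kc w)) (gaml Kc))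
      (gaml (Kb n γ m)) _ _ s1
    have t3 := FIC.le_sup_right (FIC.inf (gaml (fun w => Kb n γ m w ∧ Kc w)) (gaml Kc))
      (gaml (Kb n γ m)) _ _ s3
    have s2 : RR (FIC.inf (gaml (fun w => Kb n γ m w ∧ Kc w)) (gaml Kc))
        ((P ++ Z (2 * n)) ++ 0 :: 1 :: (Z (2 * n) ++ Q))
        ((P ++ Z (2 * n)) ++ 1 :: 0 :: (Z (2 * n) ++ Q)) := ⟨s2b, s2a⟩
    have t2 := FIC.le_sup_left (FIC.inf (gaml (fun w => Kb n γ m w ∧ Kc w)) (gaml Kc))
      (gaml (Kb n γ m)) _ _ s2
    have e1 : (P ++ Z (2 * n)) ++ 0 :: 1 :: (Z (2 * n) ++ Q) =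
        P ++ (Z (2 * n) ++ 0 :: 1 :: (Z (2 * n) ++ Q)) := by rw [List.append_assoc]
    have e2 : (P ++ Z (2 * n)) ++ 1 :: 0 :: (Z (2 * n) ++ Q) =
        P ++ (Z (2 * n) ++ 1 :: 0 :: (Z (2 * n) ++ Q)) := by rw [List.append_assoc]
    rw [e1, e2] at t2
    exact FIC.trans _ t1 (FIC.trans _ t2 (FIC.symm _ t3))
  have nu : nn (P ++ 0 :: 1 :: Q) 0 1 = m := by
    unfold nn
    rw [pre_append h1P]
    have : pre (0 :: 1 :: Q) 1 = [0] := by
      unfold pre
      simp [List.takeWhile_cons]
    rw [this, List.count_append]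
    rfl
  have nv : nn (P ++ 1 :: 0 :: Q) 0 1 = P.count 0 := by
    unfold nn
    rw [pre_append h1P, pre_cons_self]
    simp
  have hres := MWGX.pen hM (Kb n γ m) Kc hb hc hs ht
    ⟨⟨hut, by rw [nu]; exact RR.refl _⟩, huc⟩
  have := hres.1.l
  rw [nv] at this
  exact this

end

end Pool.Agent.Helper70_MWX
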