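import Pool.Agent.Helper70_MWX.Pen

/-!
# The label pentagon, part 3: `x³yxty ≈ x²yx²ty`, or `xtx² ≈ x^(n+1)tx²` and
`xtxsx ≈ x^(n+1)tx^(n+1)sx^(n+1)` (helper70)
-/

set_option autoImplicit false

namespace Pool.Agent.Helper70_MWX

open Pool.Agent.Helper14_MV Pool.Agent.Helper2_MV
open Pool.Agent.MWK (pre pre_append pre_append_mem pre_asymm mem_split pre_cons_self not_mem_pre)
open Pool.Agent.MWF (gaml)
open Pool.Agent.MWGN (nn)
open Pool.Agent.MWGQ (pw)
open Pool.Agent.MWX (LL)

/-- two blocks -/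
theorem two_filter' {w : List ℕ} {s : ℕ} (hs : s ≠ 0) (h : w.count s = 1) :
    ∃ e, w.count 0 = nn w 0 s + e ∧
      w.filter (fun c => decide (c = 0 ∨ c = s)) = Z (nn w 0 s) ++ s :: Z e := by
  have h4 : s ∈ w := by rw [← List.one_le_count_iff]; rw [h]
  obtain ⟨C, hC⟩ := mem_split h4
  have n4 : s ∉ pre w s := not_mem_pre w s
  have c4 : C.count s = 0 := by
    rw [hC, List.count_append, List.count_cons, List.count_eq_zero.2 n4] at h
    simp at h
    exact h
  refine ⟨C.count 0, ?_, ?_⟩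
  · have hb : (s == 0) = false := by simpa using hs
    conv_lhs => rw [hC]
    rw [List.count_append, List.count_cons, hb]
    rfl
  · have f1 : (pre w s).filter (fun c => decide (c = 0 ∨ c = s)) = Z (nn w 0 s) := by
      refine filt_one (by simp) ?_
      intro c hc hS
      rcases of_decide_eq_true hS with h5 | h5
      · exact h5
      · rw [h5] at hc; exact absurd hc n4
    have f2 : C.filter (fun c => decide (c = 0 ∨ c = s)) = Z (C.count 0) := by
      refine filt_one (by simp) ?_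
      intro c hc hS
      rcases of_decide_eq_true hS with h5 | h5
      · exact h5
      · rw [h5] at hc; exact absurd hc (List.count_eq_zero.1 c4)
    conv_lhs => rw [hC]
    rw [List.filter_append, List.filter_cons_of_pos (by simp), f1, f2]

/-! ### conditions -/

/-- a single `x` in front of a block with `x` is kept -/
def NoD (γ : FIC) : Prop := ∀ b a' b' : ℕ, 1 ≤ b →
  RR γ (Z 1 ++ 2 :: Z b) (Z a' ++ 2 :: Z b') → a' = 1

/-- `xtxsx` is an isoterm -/
def NoJ (γ : FIC) : Prop := ∀ L : List ℕ, RR γ [0, 2, 0, 3, 0] L → L = [0, 2, 0, 3, 0]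

theorem z_sub' {g : ℕ → List ℕ} (h : g 0 = [0]) (i : ℕ) : (Z i).flatMap g = Z i := by
  induction i with
  | zero => rfl
  | succ i ih => rw [show Z (i + 1) = 0 :: Z i from rfl, List.flatMap_cons, ih, h]; rfl

section
variable {n : ℕ} {γ : FIC}

/-- the block in front of the separator `2` contains one `0` -/
theorem hs_of {p X Y R : List ℕ} (h2 : (p ++ (X ++ (X ++ (Y ++ R)))).count 2 = 1)
    (h12 : nn (p ++ (X ++ (X ++ (Y ++ R)))) 1 2 = 1)
    (h02 : nn (p ++ (X ++ (X ++ (Y ++ R)))) 0 2 = 1)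
    (hm : ∀ d, d ∈ X ∨ d ∈ Y → 2 ≤ (p ++ (X ++ (X ++ (Y ++ R)))).count d)
    (h1p : 1 ∉ p) : 0 ∉ X := by
  have hX : 2 ∉ X := fun h => by have := hm 2 (Or.inl h); omega
  have hY : 2 ∉ Y := fun h => by have := hm 2 (Or.inr h); omega
  have hp : 2 ∉ p := by
    intro h
    unfold nn at h12
    rw [pre_append_mem h] at h12
    have h3 : (pre p 2).count 1 ≤ p.count 1 := MWK.count_pre_le p 1 2
    rw [List.count_eq_zero.2 h1p] at h3
    omega
  unfold nn at h02
  rw [pre_append hp, pre_append hX, pre_append hX, pre_append hY] at h02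
  simp only [List.count_append] at h02
  intro h
  have : 1 ≤ X.count 0 := List.one_le_count_iff.2 h
  omega

/-- the first class -/
structure KcA (w : List ℕ) : Prop where
  s : w.count 2 = 1
  y : w.count 1 = 2
  y2 : nn w 1 2 = 1
  x2 : nn w 0 2 = 1
  x : 2 ≤ w.count 0

theorem lin0 (H : Iso3 γ) {i j : ℕ} (h : RR γ (Z i) (Z j)) (hi : 2 ≤ i) : 2 ≤ j :=
  Pool.Agent.MWX.lin0 H h hi

theorem kca_keep (H : Iso3 γ) (hD : NoD γ) {w w' : List ℕ} (h : RR γ w w') (hw : KcA w) :
    KcA w' := by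
  obtain ⟨s', y', y2'⟩ := iso_y H h 2 (by norm_num) hw.s hw.y hw.y2
  obtain ⟨e, he1, he2⟩ := two_filter' (by norm_num) hw.s
  obtain ⟨e', he1', he2'⟩ := two_filter' (by norm_num) s'
  have h1 := h.filter (fun c => decide (c = 0 ∨ c = 2))
  rw [he2, he2', hw.x2] at h1
  have hx := hw.x
  have hx2 := hw.x2
  have h2 := hD e _ _ (by omega) h1
  have h3 := h.filter (fun c => decide (c = 0))
  have e0 : ∀ w : List ℕ, w.filter (fun c => decide (c = 0)) = Z (w.count 0) := by
    intro w
    refine filt_one (by simp) ?_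
    intro c _ hS
    exact of_decide_eq_true hS
  rw [e0, e0] at h3
  exact ⟨s', y', y2', h2, lin0 H h3 hw.x⟩

theorem kca_exch {p A B R : List ℕ} (hm : ∀ d, d ∈ A ∨ d ∈ B → 2 ≤ (p ++ (A ++ (B ++ R))).count d)
    (h : KcA (p ++ (A ++ (B ++ R)))) : KcA (p ++ (B ++ (A ++ R))) := by
  have hA : 2 ∉ A := fun h2 => by have := hm 2 (Or.inl h2); have := h.s; omega
  have hB : 2 ∉ B := fun h2 => by have := hm 2 (Or.inr h2); have := h.s; omega
  have hn := fun d => nn_exch (p := p) (R := R) hA hB d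
  have hc := count_exch p A B R
  exact ⟨by rw [← hc]; exact h.s, by rw [← hc]; exact h.y, by rw [← hn]; exact h.y2,
    by rw [← hn]; exact h.x2, by rw [← hc]; exact h.x⟩

/-- **first pentagon** -/
theorem pen_a (hn : 1 ≤ n) (hp : MWZ.Per n (RR γ)) (H : Iso3 γ) (hE : NoE γ) (hM : ModF γ)
    (hD : NoD γ) : Le n γ 0 1 := by
  have := pentagon hn hp H hE hM (Kc := KcA) (fun w w' h hw => kca_keep H hD h hw)
    (fun p A B R hm h => kca_exch hm h)
    (fun p X Y R h hm h1p _ _ => hs_of h.s h.y2 h.x2 hm h1p)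
    (P := []) (Q := [2, 0, 0, 4, 1]) (by simp) (by decide)
    ⟨by decide, by decide, by decide, by decide⟩
    ⟨by decide, by decide, by decide, by decide, by decide⟩
  simpa using this

/-- the letters `0`, `2`, `3` -/
def S4 : ℕ → Bool := fun c => decide (c = 0 ∨ c = 2 ∨ c = 3)

/-- the second class -/
structure KcB (w : List ℕ) : Prop where
  f : w.filter S4 = [0, 2, 0, 3, 0]
  y : w.count 1 = 2
  y2 : nn w 1 2 = 1

theorem KcB.s {w : List ℕ} (h : KcB w) : w.count 2 = 1 := by
  rw [← List.count_filter (p := S4) (by rfl), h.f]; rfl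

theorem KcB.s3 {w : List ℕ} (h : KcB w) : w.count 3 = 1 := by
  rw [← List.count_filter (p := S4) (by rfl), h.f]; rfl

theorem KcB.x2 {w : List ℕ} (h : KcB w) : nn w 0 2 = 1 := by
  rw [← nn_filter S4 (by rfl) (by rfl), h.f]; rfl

theorem kcb_keep (H : Iso3 γ) (hJ : NoJ γ) {w w' : List ℕ} (h : RR γ w w') (hw : KcB w) :
    KcB w' := by
  obtain ⟨s', y', y2'⟩ := iso_y H h 2 (by norm_num) hw.s hw.y hw.y2
  have h1 := h.filter S4
  rw [hw.f] at h1
  exact ⟨hJ _ h1, y', y2'⟩

theorem kcb_exch {p A B R : List ℕ} (hm : ∀ d, d ∈ A ∨ d ∈ B → 2 ≤ (p ++ (A ++ (B ++ R))).count d)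
    (h : KcB (p ++ (A ++ (B ++ R)))) : KcB (p ++ (B ++ (A ++ R))) := by
  have hA : 2 ∉ A := fun h2 => by have := hm 2 (Or.inl h2); have := h.s; omega
  have hB : 2 ∉ B := fun h2 => by have := hm 2 (Or.inr h2); have := h.s; omega
  have hA3 : 3 ∉ A := fun h2 => by have := hm 3 (Or.inl h2); have := h.s3; omega
  have hB3 : 3 ∉ B := fun h2 => by have := hm 3 (Or.inr h2); have := h.s3; omega
  have hn := fun d => nn_exch (p := p) (R := R) hA hB d
  have hc := count_exch p A B R
  have f1 : ∀ l : List ℕ, 2 ∉ l → 3 ∉ l → l.filter S4 = Z (l.count 0) := by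
    intro l h2 h3
    refine filt_one (by rfl) ?_
    intro c hc hS
    unfold S4 at hS
    rcases of_decide_eq_true hS with h5 | h5 | h5
    · exact h5
    · rw [h5] at hc; exact absurd hc h2
    · rw [h5] at hc; exact absurd hc h3
  refine ⟨?_, by rw [← hc]; exact h.y, by rw [← hn]; exact h.y2⟩
  rw [← h.f]
  rw [List.filter_append, List.filter_append, List.filter_append, List.filter_append,
    List.filter_append, List.filter_append, f1 A hA hA3, f1 B hB hB3]
  congr 1
  rw [← List.append_assoc, ← List.append_assoc, ← z_add, ← z_add, Nat.add_comm]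

/-- **second pentagon** -/
theorem pen_b (hn : 1 ≤ n) (hp : MWZ.Per n (RR γ)) (H : Iso3 γ) (hE : NoE γ) (hM : ModF γ)
    (hJ : NoJ γ) : Le n γ 0 1 := by
  have := pentagon hn hp H hE hM (Kc := KcB) (fun w w' h hw => kcb_keep H hJ h hw)
    (fun p A B R hm h => kcb_exch hm h)
    (fun p X Y R h hm h1p _ _ => hs_of h.s h.y2 h.x2 hm h1p)
    (P := []) (Q := [2, 0, 3, 0, 4, 1]) (by simp) (by decide)
    ⟨by decide, by decide, by decide, by decide⟩
    ⟨by decide, by decide, by decide⟩
  simpa using this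

/-! ### one letter -/

/-- `0^i 2 0^j` -/
def f2 (i j : ℕ) : List ℕ := Z i ++ 2 :: Z j

theorem f2_mul (k l : ℕ) {i j i' j' : ℕ} (h : RR γ (f2 i j) (f2 i' j')) :
    RR γ (f2 (i + k) (j + l)) (f2 (i' + k) (j' + l)) := by
  have h1 := rr_left (Z k) (rr_right (Z l) h)
  have e : ∀ a b : ℕ, Z k ++ (f2 a b ++ Z l) = f2 (a + k) (b + l) := by
    intro a b
    unfold f2
    rw [Nat.add_comm a k, z_add, z_add]
    simp only [List.append_assoc, List.cons_append]
  rw [e, e] at h1
  exact h1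

theorem f2_cap (hp : MWZ.Per n (RR γ)) {i j i' j' : ℕ} (h1 : i = i' ∨ (2 ≤ i ∧ 2 ≤ i' ∧
    i ≡ i' [MOD n])) (h2 : j = j' ∨ (2 ≤ j ∧ 2 ≤ j' ∧ j ≡ j' [MOD n])) :
    RR γ (f2 i j) (f2 i' j') := by
  have a1 : RR γ (Z i) (Z i') := by
    rcases h1 with h | ⟨a, b, c⟩
    · rw [h]; exact RR.refl _
    · exact zcap hp a b c
  have a2 : RR γ (Z j) (Z j') := by
    rcases h2 with h | ⟨a, b, c⟩
    · rw [h]; exact RR.refl _
    · exact zcap hp a b c
  exact a1.append ((RR.refl [2]).append a2)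

/-- `D 0` -/
theorem d0_of (hn : 1 ≤ n) (hp : MWZ.Per n (RR γ)) (H : Iso3 γ) (hE : NoE γ) {b a' b' : ℕ}
    (h : RR γ (f2 1 b) (f2 a' b')) (ha : a' ≠ 1) (hb : 1 ≤ b) :
    MWZ.R' n (RR γ) := by
  have fin : ∀ B B' : ℕ, 2 ≤ B → 2 ≤ B' → B ≡ 2 [MOD n] → B' ≡ 2 [MOD n] →
      RR γ (f2 1 B) (f2 (n + 1) B') → MWZ.R' n (RR γ) := by
    intro B B' h1 h2 h3 h4 h5
    have s1 := f2_cap (γ := γ) hp (i := 1) (i' := 1) (Or.inl rfl) (Or.inr ⟨le_rfl, h1, h3.symm⟩)
    have s2 := f2_cap (γ := γ) hp (i := n + 1) (i' := n + 1) (Or.inl rfl)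
      (Or.inr ⟨h2, le_rfl, h4⟩)
    exact γ.trans s1 (γ.trans h5 s2)
  have m2 : ∀ c : ℕ, 2 + n * c ≡ 2 [MOD n] := by
    intro c
    simpa using ((Nat.modEq_zero_iff_dvd).2 (dvd_mul_right n c)).add_left 2
  rcases Nat.eq_zero_or_pos a' with h0 | h0
  · subst h0
    -- from above
    have key : ∀ t, t ≤ n → RR γ (f2 (n + 1) (2 + n * b)) (f2 (n + 1 - t) (2 + t * b' + (n - t) * b)) := by
      intro t
      induction t with
      | zero =>
        intro _
        have e : f2 (n + 1 - 0) (2 + 0 * b' + (n - 0) * b) = f2 (n + 1) (2 + n * b) := by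
          congr 1 <;> simp
        rw [e]
        exact RR.refl _
      | succ t ih =>
        intro ht
        have h1 := ih (by omega)
        have h2 := f2_mul (n - t) (2 + t * b' + (n - (t + 1)) * b) h
        have e1 : f2 (1 + (n - t)) (b + (2 + t * b' + (n - (t + 1)) * b)) =
            f2 (n + 1 - t) (2 + t * b' + (n - t) * b) := by
          congr 1
          · omega
          · obtain ⟨c, hc⟩ : ∃ c, n - t = c + 1 := ⟨n - t - 1, by omega⟩
            have : n - (t + 1) = c := by omega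
            rw [this, hc]; ring
        have e2 : f2 (0 + (n - t)) (b' + (2 + t * b' + (n - (t + 1)) * b)) =
            f2 (n + 1 - (t + 1)) (2 + (t + 1) * b' + (n - (t + 1)) * b) := by
          congr 1
          · omega
          · ring
        rw [e1, e2] at h2
        exact γ.trans h1 h2
    have h3 := key n le_rfl
    have e3 : f2 (n + 1 - n) (2 + n * b' + (n - n) * b) = f2 1 (2 + n * b') := by
      congr 1
      · omega
      · simp
    rw [e3] at h3
    exact fin (2 + n * b') (2 + n * b) (by omega) (by omega) (m2 _) (m2 _) (RR.symm h3)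
  · -- at least two
    have ha2 : 2 ≤ a' := by omega
    obtain ⟨e, he⟩ : ∃ e, a' = 1 + e := ⟨a' - 1, by omega⟩
    have key : ∀ t, t ≤ n → RR γ (f2 1 (2 + n * b)) (f2 (1 + t * e) (2 + t * b' + (n - t) * b)) := by
      intro t
      induction t with
      | zero =>
        intro _
        have e1 : f2 (1 + 0 * e) (2 + 0 * b' + (n - 0) * b) = f2 1 (2 + n * b) := by
          congr 1 <;> simp
        rw [e1]
        exact RR.refl _
      | succ t ih =>
        intro ht
        have h1 := ih (by omega)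
        have h2 := f2_mul (t * e) (2 + t * b' + (n - (t + 1)) * b) h
        have e1 : f2 (1 + t * e) (b + (2 + t * b' + (n - (t + 1)) * b)) =
            f2 (1 + t * e) (2 + t * b' + (n - t) * b) := by
          congr 1
          obtain ⟨c, hc⟩ : ∃ c, n - t = c + 1 := ⟨n - t - 1, by omega⟩
          have : n - (t + 1) = c := by omega
          rw [this, hc]; ring
        have e2 : f2 (a' + t * e) (b' + (2 + t * b' + (n - (t + 1)) * b)) =
            f2 (1 + (t + 1) * e) (2 + (t + 1) * b' + (n - (t + 1)) * b) := by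
          rw [he]
          congr 1 <;> ring
        rw [e1, e2] at h2
        exact γ.trans h1 h2
    have h3 := key n le_rfl
    have e3 : f2 (1 + n * e) (2 + n * b' + (n - n) * b) = f2 (1 + n * e) (2 + n * b') := by
      congr 1
      simp
    rw [e3] at h3
    have he1 : 1 ≤ e := by omega
    have hne : 1 ≤ n * e := Nat.mul_pos hn he1
    have h4 := f2_cap (γ := γ) hp (i := 1 + n * e) (i' := n + 1) (j := 2 + n * b')
      (j' := 2 + n * b') (Or.inr ⟨by omega, by omega, by
        have a1 : 1 + n * e ≡ 1 [MOD n] := by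
          simpa using ((Nat.modEq_zero_iff_dvd).2 (dvd_mul_right n e)).add_left 1
        have a2 : n + 1 ≡ 1 [MOD n] := by simp [Nat.ModEq]
        exact a1.trans a2.symm⟩) (Or.inl rfl)
    exact fin (2 + n * b) (2 + n * b') (by omega) (by omega) (m2 _) (m2 _) (γ.trans h3 h4)

end

end Pool.Agent.Helper70_MWX
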